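import Pool.Agent.P.MP_d66c6d_pr.Defs

/-! Deterministic properties of Minkowski first passage percolation. -/

namespace Pool.Agent.P.MP_d66c6d_pr

open MeasureTheory Set Metric Filter Topology
open scoped ENNReal Pointwise

variable {X : Set ℂ} {x y : ℂ} {ε : ℝ}

theorem mfpp_le (γ : Path x y) (h : range γ ⊆ X) :
    mfpp ε X x y ≤ volume (thickening ε (range γ)) := iInf₂_le γ h

theorem mfpp_mono {ε' : ℝ} (h : ε ≤ ε') : mfpp ε X x y ≤ mfpp ε' X x y :=
  iInf₂_mono fun _ _ => measure_mono (thickening_mono h _)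

theorem le_mul_mfpp {c m : ℝ≥0∞} (hc : c ≠ 0) (hc' : c ≠ ∞)
    (h : ∀ γ : Path x y, range γ ⊆ X → m ≤ c * volume (thickening ε (range γ))) :
    m ≤ c * mfpp ε X x y := by
  unfold mfpp
  rw [ENNReal.mul_iInf_of_ne hc hc']
  refine le_iInf fun γ => ?_
  rw [ENNReal.mul_iInf_of_ne hc hc']
  exact le_iInf fun hγ => h γ hγ

theorem le_mfpp (hε : 0 < ε) : ENNReal.ofReal (ε * dist x y) ≤ mfpp ε X x y := by
  refine le_iInf₂ fun γ _ => ?_
  have hz : ∀ j : ℕ, ∃ z, j ≤ ⌊dist x y / (2 * ε)⌋₊ → z ∈ range γ ∧ dist z x = 2 * ε * j := by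
    intro j
    by_cases hj : j ≤ ⌊dist x y / (2 * ε)⌋₊
    · have h1 : (j : ℝ) ≤ dist x y / (2 * ε) := (Nat.le_floor_iff (by positivity)).1 hj
      rw [le_div_iff₀ (by positivity)] at h1
      have h2 : Continuous fun t : ℝ => dist (γ.extend t) x := by fun_prop
      obtain ⟨t, ht, h3⟩ := intermediate_value_Icc zero_le_one h2.continuousOn
        (show 2 * ε * j ∈ _ from ⟨by simp; positivity, by simp [dist_comm]; linarith⟩)
      exact ⟨γ.extend t, fun _ => ⟨γ.extend_range ▸ mem_range_self t, h3⟩⟩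
    · exact ⟨0, fun h => (hj h).elim⟩
  choose z hz using hz
  have hsub : ⋃ j ∈ Finset.range (⌊dist x y / (2 * ε)⌋₊ + 1), ball (z j) ε ⊆
      thickening ε (range γ) := by
    simp only [iUnion_subset_iff, Finset.mem_range]
    exact fun j hj => ball_subset_thickening (hz j (Nat.le_of_lt_succ hj)).1 ε
  refine le_trans ?_ (measure_mono hsub)
  rw [measure_biUnion_finset _ fun _ _ => measurableSet_ball]
  · simp only [Complex.volume_ball, Finset.sum_const, Finset.card_range, nsmul_eq_mul]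
    rw [← ENNReal.ofReal_pow hε.le, ← ENNReal.ofReal_coe_nnreal, ← ENNReal.ofReal_natCast,
      ← ENNReal.ofReal_mul (by positivity), ← ENNReal.ofReal_mul (by positivity)]
    refine ENNReal.ofReal_le_ofReal ?_
    have h1 := Nat.lt_floor_add_one (dist x y / (2 * ε))
    rw [div_lt_iff₀ (by positivity)] at h1
    rw [NNReal.coe_real_pi]
    push_cast
    have h2 := Real.pi_gt_three
    have h3 : (0 : ℝ) < (⌊dist x y / (2 * ε)⌋₊ + 1) * ε ^ 2 := by positivity
    nlinarith
  · intro i hi j hj hij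
    have h1 := (hz i (Nat.le_of_lt_succ (Finset.mem_range.1 hi))).2
    have h2 := (hz j (Nat.le_of_lt_succ (Finset.mem_range.1 hj))).2
    refine ball_disjoint_ball ?_
    have h3 := abs_dist_sub_le (z i) (z j) x
    rw [h1, h2, ← mul_sub, abs_mul, abs_of_pos (by positivity)] at h3
    have h4 : (1 : ℝ) ≤ |(i : ℝ) - j| := by
      have : (1 : ℤ) ≤ |(i : ℤ) - j| := Int.one_le_abs (sub_ne_zero.2 (by exact_mod_cast hij))
      exact_mod_cast this
    nlinarith

theorem vol_thick_le (A : Set ℂ) {r t : ℝ} (hr : 0 < r) (ht : 0 ≤ t) :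
    volume (thickening (t * r) A) ≤
      ENNReal.ofReal ((t + 5) ^ 2) * volume (thickening (2 * r) A) := by
  obtain ⟨u, hu, hd, hc⟩ := Vitali.exists_disjoint_subfamily_covering_enlargement_closedBall A id
    (fun _ => r) r (fun _ _ => le_rfl) 5 (by norm_num)
  have hcount : u.Countable := hd.countable_of_nonempty_interior fun a _ =>
    ⟨a, ball_subset_interior_closedBall (mem_ball_self hr)⟩
  have h1 : thickening (t * r) A ⊆ ⋃ a ∈ u, closedBall a ((t + 5) * r) := by
    intro w hw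
    obtain ⟨z, hz, hw⟩ := mem_thickening_iff.1 hw
    obtain ⟨b, hb, h⟩ := hc z hz
    have h2 : dist z b ≤ 5 * r := h (mem_closedBall_self hr.le)
    refine mem_biUnion hb (mem_closedBall.2 ?_)
    linarith [dist_triangle w z b]
  have h2 : ⋃ a ∈ u, closedBall a r ⊆ thickening (2 * r) A :=
    iUnion₂_subset fun a ha => (closedBall_subset_ball (by linarith)).trans
      (ball_subset_thickening (hu ha) _)
  refine (measure_mono h1).trans ((measure_biUnion_le _ hcount _).trans
    (le_trans ?_ (mul_le_mul_right (measure_mono h2) _)))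
  have hd' : u.PairwiseDisjoint fun a => closedBall a r := hd
  rw [measure_biUnion hcount hd' fun _ _ => measurableSet_closedBall, ← ENNReal.tsum_mul_left]
  refine ENNReal.tsum_le_tsum fun a => le_of_eq ?_
  rw [Complex.volume_closedBall, Complex.volume_closedBall, ENNReal.ofReal_mul (by positivity),
    mul_pow, ENNReal.ofReal_pow (by positivity), mul_assoc]

theorem mfpp_doubling {s : ℝ} (hε : 0 < ε) (hs : 0 < s) :
    mfpp ε X x y ≤ ENNReal.ofReal ((2 * s + 5) ^ 2) * mfpp (ε / s) X x y := by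
  refine le_mul_mfpp (by simp; positivity) ENNReal.ofReal_ne_top fun γ hγ =>
    (mfpp_le γ hγ).trans ?_
  have := vol_thick_le (range γ) (r := ε / s / 2) (t := 2 * s) (by positivity) (by positivity)
  rwa [show 2 * s * (ε / s / 2) = ε by field_simp, show 2 * (ε / s / 2) = ε / s by ring] at this

theorem mfpp_dil_le {r : ℝ} (hr : 0 < r) :
    mfpp (r * ε) (dil r X) (r * x) (r * y) ≤ ENNReal.ofReal (r ^ 2) * mfpp ε X x y := by
  refine le_mul_mfpp (by simp; positivity) ENNReal.ofReal_ne_top fun γ hγ => ?_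
  have hc : Continuous fun z : ℂ => (r : ℂ) * z := by fun_prop
  refine (mfpp_le (γ.map hc) ?_).trans ?_
  · rintro _ ⟨t, rfl⟩
    exact ⟨γ t, hγ (mem_range_self t), rfl⟩
  · have h1 : thickening (r * ε) (range (γ.map hc)) ⊆ r • thickening ε (range γ) := by
      intro w hw
      obtain ⟨_, ⟨t, rfl⟩, hw⟩ := mem_thickening_iff.1 hw
      refine ⟨r⁻¹ • w, mem_thickening_iff.2 ⟨γ t, mem_range_self t, ?_⟩, by
        simp only [smul_smul, mul_inv_cancel₀ hr.ne', one_smul]⟩
      have h2 : γ t = r⁻¹ • (γ.map hc t) := by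
        simp only [Path.map_coe, Function.comp_apply, Complex.real_smul, Complex.ofReal_inv]
        have : (r : ℂ) ≠ 0 := by exact_mod_cast hr.ne'
        field_simp
      rw [h2, dist_smul₀, Real.norm_of_nonneg (by positivity), inv_mul_lt_iff₀ hr]
      exact hw
    refine (measure_mono h1).trans (le_of_eq ?_)
    rw [Measure.addHaar_smul, Complex.finrank_real_complex, abs_of_pos (by positivity)]

theorem dil_dil {r : ℝ} (hr : 0 < r) : dil r⁻¹ (dil r X) = X := by
  have : (r : ℂ) ≠ 0 := by exact_mod_cast hr.ne'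
  simp only [dil, image_image, Complex.ofReal_inv, inv_mul_cancel_left₀ this, image_id']

theorem dil_one : dil 1 X = X := by simp [dil]

theorem mfpp_dil {r : ℝ} (hr : 0 < r) :
    mfpp ε (dil r X) (r * x) (r * y) = ENNReal.ofReal (r ^ 2) * mfpp (ε / r) X x y := by
  have hc : (r : ℂ) ≠ 0 := by exact_mod_cast hr.ne'
  apply le_antisymm
  · have := mfpp_dil_le (X := X) (x := x) (y := y) (ε := ε / r) hr
    rwa [mul_div_cancel₀ _ hr.ne'] at this
  · have := mfpp_dil_le (X := dil r X) (x := r * x) (y := r * y) (ε := ε) (inv_pos.2 hr)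
    rw [dil_dil hr, Complex.ofReal_inv, inv_mul_cancel_left₀ hc, inv_mul_cancel_left₀ hc,
      inv_mul_eq_div] at this
    refine (mul_le_mul_right this _).trans (le_of_eq ?_)
    rw [← mul_assoc, ← ENNReal.ofReal_mul (by positivity), ← mul_pow, mul_inv_cancel₀ hr.ne']
    simp

theorem IsCompatMetric.exists_lower {d : ℂ → ℂ → ℝ} (h : IsCompatMetric X d) (hX : IsCompact X)
    {ρ : ℝ} (hρ : 0 < ρ) : ∃ τ > (0 : ℝ), ∀ u ∈ X, ∀ v ∈ X, d u v < τ → dist u v ≤ ρ := by
  refine hX.induction_on (p := fun S => ∃ τ > (0 : ℝ), ∀ u ∈ S, ∀ v ∈ X, d u v < τ → dist u v ≤ ρ)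
    ⟨1, one_pos, by simp⟩ ?_ ?_ ?_
  · rintro s t hst ⟨τ, h1, h2⟩
    exact ⟨τ, h1, fun u hu => h2 u (hst hu)⟩
  · rintro s t ⟨τ, h1, h2⟩ ⟨τ', h1', h2'⟩
    refine ⟨min τ τ', lt_min h1 h1', ?_⟩
    rintro u (hu | hu) v hv h3
    · exact h2 u hu v hv (h3.trans_le (min_le_left _ _))
    · exact h2' u hu v hv (h3.trans_le (min_le_right _ _))
  · intro z hz
    obtain ⟨s1, hs1, h1⟩ := h.top z hz (ρ / 2) (by positivity)
    obtain ⟨s2, hs2, h2⟩ := h.top z hz (s1 / 2) (by positivity)
    refine ⟨X ∩ ball z (min s2 (ρ / 2)), inter_mem_nhdsWithin _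
      (ball_mem_nhds _ (by positivity)), s1 / 2, by positivity, fun u hu v hv huv => ?_⟩
    have h3 := mem_ball'.1 hu.2
    have h4 := (h2 u hu.1).1 (h3.trans_le (min_le_left _ _))
    have h5 := (h1 v hv).2 (by linarith [h.triangle z hz u hu.1 v hv])
    have h6 := h3.trans_le (min_le_right _ _)
    linarith [dist_triangle_left u v z]

end Pool.Agent.P.MP_d66c6d_pr
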