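import Pool.Agent.P.MP_d66c6d_pr.Soup

/-! The tree structure of the nested ensemble, a maximal inequality, and couplings. -/

namespace Pool.Agent.P.MP_d66c6d_pr

open MeasureTheory ProbabilityTheory Set Metric Filter Topology
open scoped ENNReal

section Tree

variable {S : ℕ → Set (Set ℂ)} {U : Set ℂ}

theorem cleIn_sub {T : Set (Set ℂ)} {V W : Set ℂ} (h : W ∈ cleIn T V) : W ⊆ surrounded T V := by
  obtain ⟨z, -, rfl⟩ := h
  exact connectedComponentIn_subset _ _

theorem cleIn_eq {T : Set (Set ℂ)} {V W W' : Set ℂ} (h : W ∈ cleIn T V) (h' : W' ∈ cleIn T V)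
    {z : ℂ} (hz : z ∈ W) (hz' : z ∈ W') : W = W' := by
  obtain ⟨x, -, rfl⟩ := h
  obtain ⟨y, -, rfl⟩ := h'
  rw [connectedComponentIn_eq hz, connectedComponentIn_eq hz']

theorem cleIn_open {T : Set (Set ℂ)} {V W : Set ℂ} (hV : IsOpen V) (h : W ∈ cleIn T V) :
    IsOpen W := by
  obtain ⟨z, -, rfl⟩ := h
  exact (hV.inter (isOpen_biUnion fun _ _ => isOpen_interior)).connectedComponentIn

theorem mem_gen_succ {k : ℕ} {W : Set ℂ} :
    W ∈ gen S U (k + 1) ↔ ∃ V ∈ gen S U k, W ∈ cleIn (S (k + 1)) V := by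
  simp [gen]

theorem gen_open (hU : IsOpen U) : ∀ k, ∀ V ∈ gen S U k, IsOpen V
  | 0, _, h => cleIn_open hU h
  | k + 1, _, h => by
    obtain ⟨V, hV, h⟩ := mem_gen_succ.1 h
    exact cleIn_open (gen_open hU k V hV) h

theorem gen_eq : ∀ k, ∀ V ∈ gen S U k, ∀ W ∈ gen S U k, ∀ z ∈ V, z ∈ W → V = W
  | 0, _, h, _, h', _, hz, hz' => cleIn_eq h h' hz hz'
  | k + 1, _, h, _, h', z, hz, hz' => by
    obtain ⟨V, hV, h⟩ := mem_gen_succ.1 h
    obtain ⟨W, hW, h'⟩ := mem_gen_succ.1 h'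
    have := gen_eq k V hV W hW z (cleIn_sub h hz).1 (cleIn_sub h' hz').1
    subst this
    exact cleIn_eq h h' hz hz'

theorem gen_anc {j k : ℕ} (h : j ≤ k) : ∀ V ∈ gen S U k, ∃ W ∈ gen S U j, V ⊆ W := by
  induction h with
  | refl => exact fun V hV => ⟨V, hV, Subset.rfl⟩
  | step _ ih =>
    intro V hV
    obtain ⟨V', hV', h⟩ := mem_gen_succ.1 hV
    obtain ⟨W, hW, h'⟩ := ih V' hV'
    exact ⟨W, hW, fun z hz => h' (cleIn_sub h hz).1⟩

theorem gen_congr {S' : ℕ → Set (Set ℂ)} : ∀ k, (∀ i ≤ k, S i = S' i) → gen S U k = gen S' U k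
  | 0, h => by simp only [gen, h 0 le_rfl]
  | k + 1, h => by
    simp only [gen, h (k + 1) le_rfl, gen_congr k fun i hi => h i (hi.trans (Nat.le_succ k))]

theorem surrounded_sub_holes {T : Set (Set ℂ)} {V : Set ℂ} (hV : V ⊆ ball 0 1) :
    surrounded T V ⊆ holes T := by
  rintro z ⟨-, hz⟩
  simp only [holes, mem_iUnion] at hz ⊢
  obtain ⟨K, hK, hz⟩ := hz
  refine ⟨K, ⟨hK.1, hK.2.trans hV⟩, ?_⟩
  have h1 : cluster {K ∈ T | K ⊆ V} K ⊆ cluster {K ∈ T | K ⊆ ball 0 1} K := by
    refine sUnion_subset_sUnion fun K' hK' => ?_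
    simp only [mem_ofPred_eq] at hK' ⊢
    induction hK' with
    | refl => exact Relation.ReflTransGen.refl
    | tail _ h ih => exact ih.tail ⟨⟨h.1.1, h.1.2.trans hV⟩, h.2⟩
  have h3 := interior_subset hz
  have h2 : Bornology.IsBounded (connectedComponentIn (closure (cluster {K ∈ T | K ⊆ V} K))ᶜ z) :=
    h3
  exact h2.subset (connectedComponentIn_mono _ (compl_subset_compl.2 (closure_mono h1)))

/-- The first loop is of generation `k` and surrounds the disc of radius `2 ρ`. -/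
def Ek (S : ℕ → Set (Set ℂ)) (U : Set ℂ) (ρ : ℝ) (k : ℕ) : Prop :=
  ∃ V ∈ gen S U k, 0 ∈ V ∧ closure V ⊆ ball 0 1 ∧ ball 0 (2 * ρ) ⊆ V ∧
    ∀ j ≤ k, ∀ W ∈ gen S U j, 0 ∈ W → closure W ⊆ ball 0 1 → W ⊆ V

theorem Ek_congr {S' : ℕ → Set (Set ℂ)} {ρ : ℝ} {k : ℕ} (h : ∀ i ≤ k, S i = S' i)
    (hE : Ek S U ρ k) : Ek S' U ρ k := by
  obtain ⟨V, h1, h2, h3, h4, h5⟩ := hE
  refine ⟨V, gen_congr k h ▸ h1, h2, h3, h4, fun j hj W hW => h5 j hj W ?_⟩
  rwa [gen_congr j fun i hi => h i (hi.trans hj)]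

theorem exists_Ek {ρ : ℝ} {V : Set ℂ} (h : IsFirst (nested S U) V) (hρ : ball 0 (2 * ρ) ⊆ V) :
    ∃ k, Ek S U ρ k := by
  obtain ⟨h1, h2, h3, h4⟩ := h
  obtain ⟨k, hk⟩ := mem_iUnion.1 h1
  exact ⟨k, V, hk, h2, h3, hρ, fun j _ W hW => h4 W (mem_iUnion.2 ⟨j, hW⟩)⟩

theorem Ek.sub {ρ : ℝ} {k : ℕ} (h : Ek S U ρ k) :
    ball 0 (2 * ρ) \ holes (S (k + 1)) ⊆ firstCarpet (nested S U) := by
  obtain ⟨V, h1, h2, h3, h4, h5⟩ := h
  rintro z ⟨hz1, hz2⟩
  refine ⟨V, ⟨mem_iUnion.2 ⟨k, h1⟩, h2, h3, fun W hW hW0 hW1 => ?_⟩, subset_closure (h4 hz1), ?_⟩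
  · obtain ⟨j, hj⟩ := mem_iUnion.1 hW
    rcases le_total j k with hjk | hjk
    · exact h5 j hjk W hj hW0 hW1
    · obtain ⟨W', hW', h⟩ := gen_anc hjk W hj
      rwa [gen_eq k V h1 W' hW' 0 h2 (h hW0)]
  · rintro ⟨W, ⟨hW, hWV⟩, hz⟩
    obtain ⟨j, hj⟩ := mem_iUnion.1 hW
    rcases le_or_gt j k with hjk | hjk
    · obtain ⟨W', hW', h⟩ := gen_anc hjk V h1
      have := gen_eq j W hj W' hW' z hz (h (hWV.1 hz))
      exact hWV.2 (this ▸ h)
    · obtain ⟨W', hW', h⟩ := gen_anc (show k + 1 ≤ j from hjk) W hj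
      obtain ⟨V', hV', h'⟩ := mem_gen_succ.1 hW'
      have h6 := cleIn_sub h' (h hz)
      have := gen_eq k V h1 V' hV' z (hWV.1 hz) h6.1
      subst this
      exact hz2 (surrounded_sub_holes (subset_closure.trans h3) h6)

theorem isFirst_within {G : Set (Set ℂ)} {V : Set ℂ} : IsFirst (within 1 G) V ↔ IsFirst G V :=
  ⟨fun h => ⟨h.1.1, h.2.1, h.2.2.1, fun W hW h0 h1 =>
    h.2.2.2 W ⟨hW, subset_closure.trans h1⟩ h0 h1⟩,
   fun h => ⟨⟨h.1, subset_closure.trans h.2.2.1⟩, h.2.1, h.2.2.1, fun W hW => h.2.2.2 W hW.1⟩⟩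

theorem firstCarpet_within (G : Set (Set ℂ)) : firstCarpet (within 1 G) = firstCarpet G := by
  ext z
  simp only [firstCarpet, mem_ofPred_eq, isFirst_within]
  refine exists_congr fun V => and_congr_right fun hV => ?_
  have : {W ∈ within 1 G | W ⊂ V} = {W ∈ G | W ⊂ V} := by
    ext W
    exact ⟨fun h => ⟨h.1.1, h.2⟩, fun h =>
      ⟨⟨h.1, h.2.1.trans (subset_closure.trans hV.2.2.1)⟩, h.2⟩⟩
  rw [carpet, carpet, this]

theorem isCompact_firstCarpet {G : Set (Set ℂ)} (h : ∀ V ∈ within 1 G, IsOpen V) :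
    IsCompact (firstCarpet G) := by
  by_cases hV : ∃ V, IsFirst G V
  · obtain ⟨V, hV⟩ := hV
    have : firstCarpet G = carpet G V := by
      ext z
      refine ⟨?_, fun hz => ⟨V, hV, hz⟩⟩
      rintro ⟨W, hW, hz⟩
      rwa [Subset.antisymm (hW.2.2.2 V hV.1 hV.2.1 hV.2.2.1) (hV.2.2.2 W hW.1 hW.2.1 hW.2.2.1)]
    rw [this]
    refine (Metric.isCompact_of_isClosed_isBounded isClosed_closure
      (isBounded_ball.subset hV.2.2.1)).diff (isOpen_sUnion fun W hW => h W ⟨hW.1, ?_⟩)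
    exact hW.2.1.trans (subset_closure.trans hV.2.2.1)
  · have : firstCarpet G = ∅ := eq_empty_of_forall_notMem fun z ⟨V, h1, _⟩ => hV ⟨V, h1⟩
    rw [this]
    exact isCompact_empty

end Tree

section Doob

variable {Ω : Type} [MeasurableSpace Ω] (P : Measure Ω) [IsProbabilityMeasure P]

def splice (k : ℕ) (p : (ℕ → Ω) × (ℕ → Ω)) : ℕ → Ω := fun i => if i ≤ k then p.1 i else p.2 i

theorem meas_splice (k : ℕ) : Measurable (splice (Ω := Ω) k) := by
  refine measurable_pi_lambda _ fun i => ?_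
  unfold splice
  split_ifs <;> fun_prop

theorem map_splice (k : ℕ) : ((Measure.infinitePi fun _ : ℕ => P).prod
    (Measure.infinitePi fun _ : ℕ => P)).map (splice k) = Measure.infinitePi fun _ : ℕ => P := by
  refine Measure.eq_infinitePi _ fun s t ht => ?_
  rw [Measure.map_apply (meas_splice k) (MeasurableSet.pi s.countable_toSet fun i _ => ht i)]
  have : splice k ⁻¹' Set.pi s t =
      Set.pi (s.filter (· ≤ k)) t ×ˢ Set.pi (s.filter fun i => ¬ i ≤ k) t := by
    ext p
    simp only [mem_preimage, Set.mem_pi, Finset.mem_coe, mem_prod, Finset.mem_filter, splice]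
    refine ⟨fun h => ⟨fun i hi => ?_, fun i hi => ?_⟩, fun h i hi => ?_⟩
    · simpa [hi.2] using h i hi.1
    · simpa [hi.2] using h i hi.1
    · split_ifs with hk
      · exact h.1 i ⟨hi, hk⟩
      · exact h.2 i ⟨hi, hk⟩
  rw [this, Measure.prod_prod, Measure.infinitePi_pi _ fun i _ => ht i,
    Measure.infinitePi_pi _ fun i _ => ht i, Finset.prod_filter_mul_prod_filter_not]

theorem doob (E : ℕ → Set (ℕ → Ω))
    (hE : ∀ k ω ω', (∀ i ≤ k, ω i = ω' i) → ω ∈ E k → ω' ∈ E k) {A : Set Ω}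
    (hA : MeasurableSet A) : P A * Measure.infinitePi (fun _ : ℕ => P) (⋃ k, E k) ≤
      Measure.infinitePi (fun _ : ℕ => P) (⋃ k, E k ∩ {ω | ω (k + 1) ∈ A}) := by
  set μ := Measure.infinitePi (fun _ : ℕ => P) with hμ
  set B := toMeasurable μ (⋃ k, E k ∩ {ω | ω (k + 1) ∈ A}) with hB
  have hBm : MeasurableSet B := measurableSet_toMeasurable _ _
  let f : ℕ → (ℕ → Ω) → ℝ≥0∞ := fun k ω => μ (Prod.mk ω ⁻¹' (splice k ⁻¹' B))
  have hf : ∀ k, Measurable (f k) := fun k =>
    measurable_measure_prodMk_left (meas_splice k hBm)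
  let T : ℕ → Set (ℕ → Ω) := fun k => {ω | P A ≤ f k ω}
  have hT : ∀ k, MeasurableSet (T k) := fun k => measurableSet_le measurable_const (hf k)
  have hET : ∀ k, E k ⊆ T k := by
    intro k ω hω
    have h1 : μ ((fun ω' : ℕ → Ω => ω' (k + 1)) ⁻¹' A) = P A :=
      (measurePreserving_eval_infinitePi (fun _ : ℕ => P) (k + 1)).measure_preimage
        hA.nullMeasurableSet
    change P A ≤ f k ω
    rw [← h1]
    refine measure_mono fun ω' hω' => subset_toMeasurable _ _ (mem_iUnion.2 ⟨k, ?_, ?_⟩)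
    · exact hE k ω _ (fun i hi => by simp [splice, hi]) hω
    · simpa [splice] using hω'
  have hdep : ∀ j k, j ≤ k → ∀ ω ω', f j (splice k (ω, ω')) = f j ω := by
    intro j k hjk ω ω'
    have : ∀ ω'', splice j (splice k (ω, ω'), ω'') = splice j (ω, ω'') := by
      intro ω''
      funext i
      simp only [splice]
      split_ifs with h1 h2
      · rfl
      · exact (h2 (h1.trans hjk)).elim
      · rfl
    simp only [f]
    congr 1
    ext ω''
    simp only [mem_preimage, this]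
  have hD : ∀ k, MeasurableSet (disjointed T k) := MeasurableSet.disjointed hT
  have key : ∀ k, P A * μ (disjointed T k) ≤ μ (B ∩ disjointed T k) := by
    intro k
    conv_rhs => rw [hμ, ← map_splice P k, Measure.map_apply (meas_splice k) (hBm.inter (hD k)),
      Measure.prod_apply (meas_splice k (hBm.inter (hD k)))]
    rw [← lintegral_indicator_const (hD k)]
    refine lintegral_mono fun ω => ?_
    by_cases hω : ω ∈ disjointed T k
    · rw [indicator_of_mem hω]
      refine le_trans (disjointed_subset T k hω) (measure_mono fun ω' hω' => ⟨hω', ?_⟩)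
      rw [disjointed_eq_inter_compl] at hω ⊢
      refine ⟨?_, ?_⟩
      · have := hω.1
        simp only [T, mem_ofPred_eq] at this ⊢
        rwa [hdep k k le_rfl]
      · have := hω.2
        simp only [T, mem_iInter, mem_compl_iff, mem_ofPred_eq] at this ⊢
        intro j hj
        rw [hdep j k hj.le]
        exact this j hj
    · rw [indicator_of_notMem hω]
      exact zero_le
  calc P A * μ (⋃ k, E k) ≤ P A * μ (⋃ k, disjointed T k) := by
        rw [iUnion_disjointed]
        exact mul_le_mul_right (measure_mono (iUnion_mono hET)) _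
    _ = ∑' k, P A * μ (disjointed T k) := by
        rw [measure_iUnion (disjoint_disjointed T) hD, ENNReal.tsum_mul_left]
    _ ≤ ∑' k, μ (B ∩ disjointed T k) := ENNReal.tsum_le_tsum key
    _ = μ (⋃ k, B ∩ disjointed T k) := by
        rw [measure_iUnion _ fun k => hBm.inter (hD k)]
        exact fun i j hij => ((disjoint_disjointed T) hij).mono inter_subset_right
          inter_subset_right
    _ ≤ μ B := measure_mono (iUnion_subset fun _ => inter_subset_left)
    _ = _ := measure_toMeasurable _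

end Doob

section Coupling

variable {α β : Type} [MeasurableSpace α] [MeasurableSpace β]

theorem map_fst_le [StandardBorelSpace β] (Q : Measure (α × β)) [IsProbabilityMeasure Q]
    (E : Set α) : Q.map Prod.fst E ≤ Q (Prod.fst ⁻¹' E) := by
  have : Nonempty β := (nonempty_of_isProbabilityMeasure Q).map Prod.snd
  set B := toMeasurable Q (Prod.fst ⁻¹' E)
  have hB : MeasurableSet B := measurableSet_toMeasurable _ _
  have hT : MeasurableSet {a | 1 ≤ Q.condKernel a (Prod.mk a ⁻¹' B)} :=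
    measurableSet_le measurable_const (Kernel.measurable_kernel_prodMk_left hB)
  rw [← measure_toMeasurable (Prod.fst ⁻¹' E)]
  calc Q.map Prod.fst E ≤ Q.fst {a | 1 ≤ Q.condKernel a (Prod.mk a ⁻¹' B)} := by
        refine measure_mono fun a ha => ?_
        have : Prod.mk a ⁻¹' B = univ := eq_univ_of_forall fun b => subset_toMeasurable _ _ ha
        simp [this]
    _ ≤ ∫⁻ a, Q.condKernel a (Prod.mk a ⁻¹' B) ∂Q.fst := by
        rw [← lintegral_indicator_one hT]
        refine lintegral_mono fun a => ?_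
        by_cases ha : a ∈ {a | 1 ≤ Q.condKernel a (Prod.mk a ⁻¹' B)}
        · rw [indicator_of_mem ha]
          exact ha
        · rw [indicator_of_notMem ha]
          exact zero_le
    _ = Q B := by rw [← Measure.compProd_apply hB, Q.disintegrate]

theorem map_snd_le [StandardBorelSpace α] (Q : Measure (α × β)) [IsProbabilityMeasure Q]
    (E : Set β) : Q.map Prod.snd E ≤ Q (Prod.snd ⁻¹' E) := by
  have : IsProbabilityMeasure (Q.map Prod.swap) := Measure.isProbabilityMeasure_map (by fun_prop)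
  have h := map_fst_le (Q.map Prod.swap) E
  rw [Measure.map_map measurable_fst measurable_swap] at h
  refine h.trans (le_of_eq ?_)
  exact MeasurableEquiv.map_apply MeasurableEquiv.prodComm _

theorem transfer [StandardBorelSpace α] [StandardBorelSpace β] {γ : Type} (Q : Measure (α × β))
    [IsProbabilityMeasure Q] (f : α → γ) (g : β → γ) (A : Set γ) :
    Q.map Prod.fst (f ⁻¹' A) ≤ Q.map Prod.snd (g ⁻¹' A) + Q {p | f p.1 ≠ g p.2} ∧
    Q.map Prod.snd (g ⁻¹' A) ≤ Q.map Prod.fst (f ⁻¹' A) + Q {p | f p.1 ≠ g p.2} := by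
  constructor
  · refine (map_fst_le Q _).trans (le_trans ?_ (add_le_add_left
      (Measure.le_map_apply measurable_snd.aemeasurable _) _))
    refine le_trans (measure_mono fun p hp => ?_) (measure_union_le _ _)
    by_cases h : f p.1 = g p.2
    · exact Or.inl (show g p.2 ∈ A from h ▸ hp)
    · exact Or.inr h
  · refine (map_snd_le Q _).trans (le_trans ?_ (add_le_add_left
      (Measure.le_map_apply measurable_fst.aemeasurable _) _))
    refine le_trans (measure_mono fun p hp => ?_) (measure_union_le _ _)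
    by_cases h : f p.1 = g p.2
    · exact Or.inl (show f p.1 ∈ A from h ▸ hp)
    · exact Or.inr h

end Coupling

end Pool.Agent.P.MP_d66c6d_pr
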