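import Pool.Agent.P.MP_d66c6d_pr.Geo

/-! The limit path, and the absence of long chains of small marked balls in a good box. -/

namespace Pool.Agent.P.MP_d66c6d_pr

open Set Metric Filter Topology

noncomputable def pt (r : ℝ) (c : ℤ × ℤ) : ℝ × ℝ := (r * c.1, r * c.2)

noncomputable def rad (r0 : ℝ) (M n : ℕ) : ℝ := r0 / (M : ℝ) ^ n

variable {M : ℕ} {ξ : ℕ → ℤ × ℤ → Prop} {r0 : ℝ}

theorem rad_pos (hM : 400 ≤ M) (hr : 0 < r0) (n : ℕ) : 0 < rad r0 M n := by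
  have : (0 : ℝ) < M := by exact_mod_cast (by omega : 0 < M)
  unfold rad; positivity

theorem rad_succ (hM : 400 ≤ M) (n : ℕ) : rad r0 M n = M * rad r0 M (n + 1) := by
  have : (M : ℝ) ≠ 0 := by exact_mod_cast (by omega : M ≠ 0)
  unfold rad; field_simp; ring

theorem rad_anti (hM : 400 ≤ M) (hr : 0 < r0) {n m : ℕ} (h : n ≤ m) :
    rad r0 M m ≤ rad r0 M n := by
  have h1 : (1 : ℝ) ≤ M := by exact_mod_cast (by omega : 1 ≤ M)
  unfold rad
  exact div_le_div_of_nonneg_left hr.le (by positivity) (pow_le_pow_right₀ h1 h)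

theorem dist_pt_le_iff {r : ℝ} (hr : 0 < r) (c c' : ℤ × ℤ) (k : ℤ) :
    dist (pt r c) (pt r c') ≤ r * k ↔ nr c c' k := by
  simp only [pt, Prod.dist_eq, Real.dist_eq, ← mul_sub, abs_mul, abs_of_pos hr, max_le_iff, nr]
  rw [mul_le_mul_iff_right₀ hr, mul_le_mul_iff_right₀ hr]
  constructor
  · rintro ⟨h1, h2⟩
    exact ⟨by exact_mod_cast h1, by exact_mod_cast h2⟩
  · rintro ⟨h1, h2⟩
    exact ⟨by exact_mod_cast h1, by exact_mod_cast h2⟩

theorem pt_mulc (hM : 400 ≤ M) (n : ℕ) (c : ℤ × ℤ) :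
    pt (rad r0 M (n + 1)) (mulc M c) = pt (rad r0 M n) c := by
  rw [rad_succ hM n]
  simp only [pt, mulc]
  push_cast
  ext <;> simp only <;> ring

theorem floor_add_one_le (s : ℝ) : ⌊s + 1⌋₊ ≤ ⌊s⌋₊ + 1 := by
  rcases le_total 0 s with h | h
  · rw [Nat.floor_add_one h]
  · have : ⌊s + 1⌋₊ ≤ ⌊(1 : ℝ)⌋₊ := Nat.floor_mono (by linarith)
    rw [Nat.floor_one] at this
    omega

theorem exists_path (hM : 400 ≤ M) (hr : 0 < r0) (c0 : ℕ → ℤ × ℤ)
    (h0 : ∀ i, Good M ξ 0 (c0 i)) (h1 : ∀ i, nr (c0 i) (c0 (i + 1)) 1) :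
    ∃ (γ : ℝ → ℝ × ℝ) (p : ℕ → ℕ → ℤ × ℤ), Continuous γ ∧ p 0 = c0 ∧
      (∀ n i, Good M ξ n (p n i)) ∧
      ∀ n t, dist (γ t) (pt (rad r0 M n) (p n ⌊t * ((6 * M : ℕ) : ℝ) ^ n⌋₊)) ≤ 4 * rad r0 M n := by
  obtain ⟨p, p0, pg, ps, pc⟩ := exists_levels hM c0 h0 h1
  have hMR : (400 : ℝ) ≤ M := by exact_mod_cast hM
  set x : ℝ → ℕ → ℝ × ℝ := fun t n => pt (rad r0 M n) (p n ⌊t * ((6 * M : ℕ) : ℝ) ^ n⌋₊) with hx
  have hstep : ∀ t n, dist (x t n) (x t (n + 1)) ≤ (2 * r0) * (1 / (M : ℝ)) ^ n := by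
    intro t n
    have e : ⌊t * ((6 * M : ℕ) : ℝ) ^ (n + 1)⌋₊ / (6 * M) = ⌊t * ((6 * M : ℕ) : ℝ) ^ n⌋₊ := by
      rw [← Nat.floor_div_natCast]
      congr 1
      have : ((6 * M : ℕ) : ℝ) ≠ 0 := by push_cast; positivity
      field_simp
      ring
    have h := (dist_pt_le_iff (rad_pos hM hr (n + 1)) _ _ _).2
      (pc n ⌊t * ((6 * M : ℕ) : ℝ) ^ (n + 1)⌋₊)
    rw [pt_mulc hM, e] at h
    rw [dist_comm]
    refine h.trans (le_of_eq ?_)
    unfold rad
    push_cast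
    rw [one_div, inv_pow]
    field_simp
    ring
  have hq : 1 / (M : ℝ) < 1 := by rw [div_lt_one (by linarith)]; linarith
  have hc : ∀ t, ∃ a, Tendsto (x t) atTop (𝓝 a) := fun t =>
    cauchySeq_tendsto_of_complete (cauchySeq_of_le_geometric _ _ hq (hstep t))
  choose γ hγ using hc
  have hd : ∀ n t, dist (γ t) (x t n) ≤ 4 * rad r0 M n := by
    intro n t
    rw [dist_comm]
    refine (dist_le_of_le_geometric_of_tendsto _ _ hq (hstep t) (hγ t) n).trans ?_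
    have h2 : 1 / 2 ≤ 1 - 1 / (M : ℝ) := by
      have : 1 / (M : ℝ) ≤ 1 / 2 := by
        apply one_div_le_one_div_of_le <;> linarith
      linarith
    rw [div_le_iff₀ (by linarith)]
    have h3 : 2 * r0 * (1 / (M : ℝ)) ^ n = 2 * rad r0 M n := by
      unfold rad; rw [one_div, inv_pow]; ring
    rw [h3]
    nlinarith [rad_pos hM hr n]
  have hJ : ∀ n : ℕ, (0 : ℝ) < ((6 * M : ℕ) : ℝ) ^ n := fun n => by push_cast; positivity
  have hcl : ∀ n s t, s ≤ t → t - s ≤ 1 / ((6 * M : ℕ) : ℝ) ^ n →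
      dist (γ s) (γ t) ≤ 9 * rad r0 M n := by
    intro n s t hst hts
    have a1 : ⌊s * ((6 * M : ℕ) : ℝ) ^ n⌋₊ ≤ ⌊t * ((6 * M : ℕ) : ℝ) ^ n⌋₊ :=
      Nat.floor_mono (mul_le_mul_of_nonneg_right hst (hJ n).le)
    have a2 : ⌊t * ((6 * M : ℕ) : ℝ) ^ n⌋₊ ≤ ⌊s * ((6 * M : ℕ) : ℝ) ^ n⌋₊ + 1 := by
      refine le_trans (Nat.floor_mono ?_) (floor_add_one_le _)
      rw [le_div_iff₀ (hJ n)] at hts
      nlinarith
    have a3 : dist (x s n) (x t n) ≤ rad r0 M n := by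
      rcases Nat.eq_or_lt_of_le a1 with h | h
      · simp only [hx, h, dist_self]
        exact (rad_pos hM hr n).le
      · have h' : ⌊t * ((6 * M : ℕ) : ℝ) ^ n⌋₊ = ⌊s * ((6 * M : ℕ) : ℝ) ^ n⌋₊ + 1 := by omega
        simp only [hx, h']
        have := (dist_pt_le_iff (rad_pos hM hr n) _ _ _).2 (ps n ⌊s * ((6 * M : ℕ) : ℝ) ^ n⌋₊)
        simpa using this
    have := dist_triangle4 (γ s) (x s n) (x t n) (γ t)
    have b1 := hd n s
    have b2 := hd n t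
    rw [dist_comm] at b2
    linarith
  refine ⟨γ, p, ?_, p0, pg, hd⟩
  rw [Metric.continuous_iff]
  intro t ε hε
  obtain ⟨n, hn⟩ : ∃ n : ℕ, 9 * rad r0 M n < ε := by
    obtain ⟨n, hn⟩ := exists_pow_lt_of_lt_one (show 0 < ε / (9 * r0) by positivity) hq
    refine ⟨n, ?_⟩
    rw [lt_div_iff₀ (by positivity), one_div, inv_pow] at hn
    unfold rad
    rw [div_eq_mul_inv]
    linarith
  refine ⟨1 / ((6 * M : ℕ) : ℝ) ^ n, by have := hJ n; positivity, fun s hs => ?_⟩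
  rw [Real.dist_eq, abs_lt] at hs
  rcases le_total s t with h | h
  · exact (hcl n s t h (by linarith)).trans_lt hn
  · rw [dist_comm]
    exact (hcl n t s h (by linarith)).trans_lt hn

/-- first exit from a closed ball -/
theorem first_exit_le {E : Type*} [MetricSpace E] {σ : ℝ → E} (hσ : Continuous σ) {a b : ℝ}
    (hab : a ≤ b) {p : E} {R : ℝ} (ha : dist (σ a) p ≤ R) (hb : R ≤ dist (σ b) p) :
    ∃ c ∈ Icc a b, dist (σ c) p = R ∧ ∀ t ∈ Icc a c, dist (σ t) p ≤ R := by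
  have hcont : Continuous fun t => dist (σ t) p := by fun_prop
  have hcl : IsClosed (Icc a b ∩ {t | R ≤ dist (σ t) p}) :=
    isClosed_Icc.inter (isClosed_le continuous_const hcont)
  have hne : (Icc a b ∩ {t | R ≤ dist (σ t) p}).Nonempty := ⟨b, ⟨hab, le_rfl⟩, hb⟩
  obtain ⟨c, hc, hmin⟩ := (isCompact_Icc.of_isClosed_subset hcl inter_subset_left).exists_isLeast hne
  have hlt : ∀ t, a ≤ t → t < c → dist (σ t) p < R := by
    intro t h1 h2
    by_contra h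
    have := hmin ⟨⟨h1, h2.le.trans hc.1.2⟩, not_lt.1 h⟩
    linarith
  have hc' : dist (σ c) p ≤ R := by
    obtain ⟨d, hd, hd'⟩ := intermediate_value_Icc hc.1.1 hcont.continuousOn ⟨ha, hc.2⟩
    rcases eq_or_lt_of_le hd.2 with h | h
    · rw [← h]; exact hd'.le
    · have := hlt d hd.1 h
      simp only at hd'
      linarith
  refine ⟨c, hc.1, le_antisymm hc' hc.2, fun t ht => ?_⟩
  rcases eq_or_lt_of_le ht.2 with h | h
  · rw [h]; exact hc'
  · exact (hlt t ht.1 h).le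

theorem first_exit {E : Type*} [MetricSpace E] {σ : ℝ → E} (hσ : Continuous σ) (a b : ℝ)
    {p : E} {R : ℝ} (ha : dist (σ a) p ≤ R) (hb : R ≤ dist (σ b) p) :
    ∃ c ∈ uIcc a b, dist (σ c) p = R ∧ ∀ t ∈ uIcc a c, dist (σ t) p ≤ R := by
  rcases le_total a b with h | h
  · obtain ⟨c, hc, h1, h2⟩ := first_exit_le hσ h ha hb
    exact ⟨c, by rwa [uIcc_of_le h], h1, by rwa [uIcc_of_le hc.1]⟩
  · obtain ⟨c, hc, h1, h2⟩ := first_exit_le (σ := fun t => σ (-t)) (by fun_prop)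
      (neg_le_neg h) (by simpa using ha) (by simpa using hb)
    refine ⟨-c, ?_, h1, fun t ht => ?_⟩
    · rw [uIcc_of_ge h]
      exact ⟨by linarith [hc.2], by linarith [hc.1]⟩
    · rw [uIcc_of_ge (by linarith [hc.1])] at ht
      have := h2 (-t) ⟨by linarith [ht.2], by linarith [ht.1]⟩
      simpa using this

/-- `x` lies in a marked ball of a level between `n` and `N`. -/
def covered (M : ℕ) (ξ : ℕ → ℤ × ℤ → Prop) (r0 : ℝ) (n N : ℕ) (x : ℝ × ℝ) : Prop :=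
  ∃ m, n ≤ m ∧ m ≤ N ∧ ∃ c, ξ m c ∧ dist x (pt (rad r0 M m) c) ≤ 3 * rad r0 M m

theorem exists_cell {r : ℝ} (hr : 0 < r) (x : ℝ × ℝ) : ∃ u : ℤ × ℤ, dist x (pt r u) ≤ r := by
  refine ⟨(⌊x.1 / r⌋, ⌊x.2 / r⌋), ?_⟩
  have key : ∀ y : ℝ, |y - r * (⌊y / r⌋ : ℤ)| ≤ r := by
    intro y
    have h1 := Int.floor_le (y / r)
    have h2 := Int.lt_floor_add_one (y / r)
    rw [le_div_iff₀ hr] at h1
    rw [div_lt_iff₀ hr] at h2
    rw [abs_le]
    constructor <;> nlinarith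
  simp only [pt, Prod.dist_eq, Real.dist_eq, max_le_iff]
  exact ⟨key _, key _⟩

theorem Good.not_cov (hM : 400 ≤ M) (hr : 0 < r0) {n : ℕ} {c c' : ℤ × ℤ} (hg : Good M ξ n c)
    {x : ℝ × ℝ} (h1 : dist x (pt (rad r0 M n) c) ≤ 6 * rad r0 M n) (h2 : ξ n c')
    (h3 : dist x (pt (rad r0 M n) c') ≤ 3 * rad r0 M n) : False := by
  refine hg.near ((dist_pt_le_iff (rad_pos hM hr n) _ _ _).1 ?_) h2
  have := dist_triangle_left (pt (rad r0 M n) c) (pt (rad r0 M n) c') x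
  push_cast
  linarith

theorem no_long (hM : 400 ≤ M) (hr : 0 < r0) (N : ℕ) : ∀ (j n : ℕ), N + 1 ≤ n + j →
    ∀ c, Good M ξ n c → ∀ σ : ℝ → ℝ × ℝ, Continuous σ → ∀ a b : ℝ,
    (∀ t ∈ uIcc a b, dist (σ t) (pt (rad r0 M n) c) ≤ 6 * rad r0 M n ∧
      covered M ξ r0 n N (σ t)) → dist (σ a) (σ b) < rad r0 M n := by
  intro j
  induction j with
  | zero =>
    intro n hn c _ σ _ a b h
    obtain ⟨m, h1, h2, -⟩ := (h a left_mem_uIcc).2
    omega
  | succ j ih =>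
    intro n hn c hg σ hσ a b h
    by_contra hlong
    push Not at hlong
    have hMR : (400 : ℝ) ≤ M := by exact_mod_cast hM
    have hr1 := rad_pos hM hr (n + 1)
    have hrs := rad_succ (r0 := r0) hM n
    have hcov : ∀ t ∈ uIcc a b, covered M ξ r0 (n + 1) N (σ t) := by
      intro t ht
      obtain ⟨h1, m, m1, m2, c', m3, m4⟩ := h t ht
      rcases Nat.eq_or_lt_of_le m1 with e | e
      · subst e
        exact (hg.not_cov hM hr h1 m3 m4).elim
      · exact ⟨m, e, m2, c', m3, m4⟩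
    have hsub : ∀ t ∈ uIcc a b, ∀ u, dist (σ t) (pt (rad r0 M (n + 1)) u) ≤ rad r0 M (n + 1) →
        nr u (mulc M c) (7 * M) := by
      intro t ht u hu
      refine (dist_pt_le_iff hr1 _ _ _).1 ?_
      rw [pt_mulc hM]
      have := dist_triangle_left (pt (rad r0 M (n + 1)) u) (pt (rad r0 M n) c) (σ t)
      have h1 := (h t ht).1
      push_cast
      nlinarith
    have main : ∀ a' b' : ℝ, uIcc a' b' = uIcc a b → rad r0 M n ≤ dist (σ a') (σ b') →
        ∀ u, dist (σ a') (pt (rad r0 M (n + 1)) u) ≤ rad r0 M (n + 1) →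
        ¬ Good M ξ (n + 1) u := by
      intro a' b' hab hl u hu hgu
      have h6 : 6 * rad r0 M (n + 1) ≤ dist (σ b') (pt (rad r0 M (n + 1)) u) := by
        have := dist_triangle_right (σ a') (σ b') (pt (rad r0 M (n + 1)) u)
        nlinarith
      obtain ⟨c', hc', e1, e2⟩ := first_exit hσ a' b' (by linarith) h6
      have := ih (n + 1) (by omega) u hgu σ hσ a' c' fun t ht =>
        ⟨e2 t ht, hcov t (hab ▸ uIcc_subset_uIcc left_mem_uIcc hc' ht)⟩
      have h7 := dist_triangle_left (σ c') (pt (rad r0 M (n + 1)) u) (σ a')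
      linarith
    obtain ⟨u, hu⟩ := exists_cell hr1 (σ a)
    obtain ⟨v, hv⟩ := exists_cell hr1 (σ b)
    have huv := hg.sub (hsub a left_mem_uIcc u hu) (hsub b right_mem_uIcc v hv)
      (main a b rfl hlong u hu) (main b a (uIcc_comm _ _) (by rwa [dist_comm]) v hv)
    have h8 := (dist_pt_le_iff hr1 _ _ _).2 huv
    have h9 := dist_triangle4 (σ a) (pt (rad r0 M (n + 1)) u) (pt (rad r0 M (n + 1)) v) (σ b)
    rw [dist_comm] at hv
    push_cast at h8
    nlinarith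

/-- A point in good boxes of all levels is not approached by chains from a marked ball. -/
theorem avoid (hM : 400 ≤ M) (hr : 0 < r0) {z : ℝ × ℝ}
    (hz : ∀ n, ∃ c, Good M ξ n c ∧ dist z (pt (rad r0 M n) c) ≤ 4 * rad r0 M n)
    {m : ℕ} {c : ℤ × ℤ} (hc : ξ m c) {N : ℕ} {σ : ℝ → ℝ × ℝ} (hσ : Continuous σ) {a b : ℝ}
    (ha : dist (σ a) (pt (rad r0 M m) c) ≤ 3 * rad r0 M m)
    (hcov : ∀ t ∈ uIcc a b, covered M ξ r0 0 N (σ t)) : rad r0 M (m + 1) < dist (σ b) z := by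
  by_contra hb
  push Not at hb
  have hMR : (400 : ℝ) ≤ M := by exact_mod_cast hM
  have hfar : ∀ k c' x, ξ k c' → dist x (pt (rad r0 M k) c') ≤ 3 * rad r0 M k →
      rad r0 M k < dist x z := by
    intro k c' x h1 h2
    by_contra h3
    push Not at h3
    obtain ⟨u, hu, hu'⟩ := hz k
    refine hu.not_cov hM hr ?_ h1 h2
    have := dist_triangle x z (pt (rad r0 M k) u)
    have := rad_pos hM hr k
    linarith
  obtain ⟨u, hu, hu'⟩ := hz (m + 1)
  have hr1 := rad_pos hM hr (m + 1)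
  have hrs := rad_succ (r0 := r0) hM m
  have h1 := hfar m c _ hc ha
  have h5 : dist (σ b) (pt (rad r0 M (m + 1)) u) ≤ 5 * rad r0 M (m + 1) := by
    have := dist_triangle (σ b) z (pt (rad r0 M (m + 1)) u)
    linarith
  have h6 : 6 * rad r0 M (m + 1) ≤ dist (σ a) (pt (rad r0 M (m + 1)) u) := by
    have := dist_triangle_right (σ a) z (pt (rad r0 M (m + 1)) u)
    nlinarith
  obtain ⟨c', hc', e1, e2⟩ := first_exit hσ b a (by linarith) h6
  have := no_long hM hr N (N + 1) (m + 1) (by omega) u hu σ hσ b c' fun t ht => ⟨e2 t ht, ?_⟩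
  · have h7 := dist_triangle_left (σ c') (pt (rad r0 M (m + 1)) u) (σ b)
    linarith
  · have ht' : t ∈ uIcc a b := by
      rw [uIcc_comm]
      exact uIcc_subset_uIcc left_mem_uIcc hc' ht
    obtain ⟨k, -, k2, c'', k3, k4⟩ := hcov t ht'
    refine ⟨k, ?_, k2, c'', k3, k4⟩
    by_contra hk
    have h8 := hfar k c'' _ k3 k4
    have h9 := rad_anti hM hr (show k ≤ m by omega)
    have h10 := dist_triangle_right (σ t) z (pt (rad r0 M (m + 1)) u)
    have h11 := e2 t ht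
    nlinarith

end Pool.Agent.P.MP_d66c6d_pr
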