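import Pool.Agent.P.MP_d66c6d_pr.Defs
import Pool.Agent.P.MP_d66c6d_pr.Geo2

/-! A cheap path that avoids all filled clusters. -/

namespace Pool.Agent.P.MP_d66c6d_pr

open MeasureTheory Set Metric Filter Topology
open scoped ENNReal

def toR (z : ℂ) : ℝ × ℝ := (z.re, z.im)

def toC (p : ℝ × ℝ) : ℂ := ⟨p.1, p.2⟩

theorem toR_toC (p : ℝ × ℝ) : toR (toC p) = p := rfl

theorem cont_toR : Continuous toR := by unfold toR; fun_prop

theorem cont_toC : Continuous toC := Complex.equivRealProdCLM.symm.continuous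

theorem dist_toR (z w : ℂ) : dist (toR z) (toR w) ≤ dist z w := by
  rw [Prod.dist_eq, Real.dist_eq, Real.dist_eq, max_le_iff, dist_eq_norm]
  simp only [toR]
  exact ⟨by simpa using Complex.abs_re_le_norm (z - w), by simpa using Complex.abs_im_le_norm (z - w)⟩

theorem dist_toC (p q : ℝ × ℝ) : dist (toC p) (toC q) ≤ 2 * dist p q := by
  have h := Complex.norm_le_abs_re_add_abs_im (toC p - toC q)
  have h1 : |p.1 - q.1| ≤ dist p q := by rw [Prod.dist_eq]; exact le_max_left _ _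
  have h2 : |p.2 - q.2| ≤ dist p q := by rw [Prod.dist_eq]; exact le_max_right _ _
  rw [dist_eq_norm]
  simp only [toC, Complex.sub_re, Complex.sub_im] at h ⊢
  linarith

/-- `Y` contains a path of extent at least `ρ` whose neighbourhoods have small area. -/
def CheapPath (M : ℕ) (r0 ρ C : ℝ) (Y : Set ℂ) : Prop :=
  ∃ (x y : ℂ) (γ : Path x y), range γ ⊆ Y ∧ ρ ≤ dist x y ∧
    ∀ k, volume (thickening (rad r0 M k) (range γ)) ≤ ENNReal.ofReal (C * (6 / (M : ℝ)) ^ k)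

theorem CheapPath.mono {M : ℕ} {r0 ρ C : ℝ} {Y Z : Set ℂ} (h : CheapPath M r0 ρ C Y)
    (hYZ : Y ⊆ Z) : CheapPath M r0 ρ C Z := by
  obtain ⟨x, y, γ, h1, h2⟩ := h
  exact ⟨x, y, γ, h1.trans hYZ, h2⟩

theorem vol_ball_le (a : ℂ) {r : ℝ} (hr : 0 ≤ r) :
    volume (closedBall a r) ≤ ENNReal.ofReal (4 * r ^ 2) := by
  rw [Complex.volume_closedBall, ← ENNReal.ofReal_pow hr, ← ENNReal.ofReal_coe_nnreal,
    ← ENNReal.ofReal_mul (by positivity)]
  refine ENNReal.ofReal_le_ofReal ?_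
  have := Real.pi_le_four
  rw [NNReal.coe_real_pi]
  nlinarith [sq_nonneg r]

variable {M : ℕ} {ξ : ℕ → ℤ × ℤ → Prop} {r0 : ℝ}

theorem chain_joined {S : Set (Set ℂ)} (hS : ∀ K ∈ S, IsPathConnected K ∧ ∃ m c, ξ m c ∧
      ∀ x ∈ K, dist (toR x) (pt (rad r0 M m) c) ≤ 3 * rad r0 M m) {K K' : Set ℂ} (hK : K ∈ S)
    (h : Relation.ReflTransGen (fun A B => B ∈ S ∧ (A ∩ B).Nonempty) K K') {x : ℂ} (hx : x ∈ K) :
    ∀ y ∈ K', ∃ N, JoinedIn {w | covered M ξ r0 0 N (toR w)} x y := by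
  have base : ∀ B ∈ S, ∃ N, ∀ u ∈ B, ∀ v ∈ B,
      JoinedIn {w | covered M ξ r0 0 N (toR w)} u v := by
    intro B hB
    obtain ⟨h1, m, c, h2, h3⟩ := hS B hB
    exact ⟨m, fun u hu v hv => (h1.joinedIn u hu v hv).mono fun w hw =>
      ⟨m, Nat.zero_le _, le_rfl, c, h2, h3 w hw⟩⟩
  have mono : ∀ {N N' : ℕ}, N ≤ N' → {w | covered M ξ r0 0 N (toR w)} ⊆
      {w | covered M ξ r0 0 N' (toR w)} := by
    rintro N N' hN w ⟨m, h1, h2, h3⟩
    exact ⟨m, h1, h2.trans hN, h3⟩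
  induction h with
  | refl =>
    intro y hy
    obtain ⟨N, hN⟩ := base K hK
    exact ⟨N, hN x hx y hy⟩
  | tail _ hbc ih =>
    intro y hy
    obtain ⟨hc, v, hv1, hv2⟩ := hbc
    obtain ⟨N1, h1⟩ := ih v hv1
    obtain ⟨N2, h2⟩ := base _ hc
    exact ⟨max N1 N2, (h1.mono (mono (le_max_left _ _))).trans
      ((h2 v hv2 y hy).mono (mono (le_max_right _ _)))⟩

theorem not_mem_closure_cluster (hM : 400 ≤ M) (hr : 0 < r0) {S : Set (Set ℂ)}
    (hS : ∀ K ∈ S, IsPathConnected K ∧ ∃ m c, ξ m c ∧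
      ∀ x ∈ K, dist (toR x) (pt (rad r0 M m) c) ≤ 3 * rad r0 M m) {K : Set ℂ} (hK : K ∈ S)
    {z : ℝ × ℝ} (hz : ∀ n, ∃ c, Good M ξ n c ∧ dist z (pt (rad r0 M n) c) ≤ 4 * rad r0 M n) :
    toC z ∉ closure (cluster S K) := by
  intro h
  obtain ⟨h1, m, c, h2, h3⟩ := hS K hK
  obtain ⟨x, hx⟩ := h1.nonempty
  obtain ⟨y, ⟨K', hK', hy⟩, hd⟩ := Metric.mem_closure_iff.1 h _ (rad_pos hM hr (m + 1))
  obtain ⟨N, σ, hσ⟩ := chain_joined hS hK hK' hx y hy
  have := avoid hM hr hz h2 (N := N) (σ := fun t => toR (σ.extend t))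
    (cont_toR.comp σ.continuous_extend) (a := 0) (b := 1) (by simpa using h3 x hx) fun t ht => by
      rw [uIcc_of_le zero_le_one] at ht
      rw [σ.extend_apply ht]
      exact hσ _
  simp only [Path.extend_one] at this
  have h4 := dist_toR y (toC z)
  rw [toR_toC, dist_comm y] at h4
  linarith

theorem cluster_sub {S : Set (Set ℂ)} {U K : Set ℂ} (hS : ∀ K ∈ S, K ⊆ U) (hK : K ∈ S) :
    cluster S K ⊆ U := by
  rintro z ⟨K', hK', hz⟩
  refine hS K' ?_ hz
  rcases Relation.ReflTransGen.cases_tail hK' with h | ⟨_, _, h⟩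
  · rwa [h]
  · exact h.1

theorem det (hM : 400 ≤ M) (hr : 0 < r0) {ρ : ℝ} (hρ : 16 * r0 ≤ ρ) (hρ1 : ρ ≤ 1 / 2) {L : ℕ}
    (hL : 2 ≤ r0 * L) {S : Set (Set ℂ)} (hS1 : ∀ K ∈ S, K ⊆ ball 0 1)
    (hS : ∀ K ∈ S, IsPathConnected K ∧ ∃ m c, ξ m c ∧
      ∀ x ∈ K, dist (toR x) (pt (rad r0 M m) c) ≤ 3 * rad r0 M m)
    (hg : ∀ i : ℕ, i ≤ L → Good M ξ 0 ((i : ℤ), 0)) :
    CheapPath M r0 ρ (400 * (L + 1) * r0 ^ 2)
      (ball 0 (2 * ρ) \ ⋃ K ∈ S, fill (closure (cluster S K))) := by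
  obtain ⟨γ, p, hγ, p0, pg, hd⟩ := exists_path hM hr (fun i => (((min i L : ℕ) : ℤ), 0))
    (fun i => hg _ (min_le_right _ _)) (fun i => by simp only [nr, abs_le]; omega)
  set g : ℝ → ℂ := fun t => toC (γ t) with hgdef
  have hgc : Continuous g := cont_toC.comp hγ
  have hr0 : rad r0 M 0 = r0 := by simp [rad]
  have g0 : dist (g 0) 0 ≤ 8 * r0 := by
    have h1 := hd 0 0
    simp only [p0, hr0, zero_mul, Nat.floor_zero, Nat.zero_min, pt] at h1
    have h2 := dist_toC (γ 0) (r0 * ((0 : ℕ) : ℤ), r0 * (0 : ℤ))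
    have h3 : toC (r0 * ((0 : ℕ) : ℤ), r0 * (0 : ℤ)) = 0 := by simp [toC, Complex.ext_iff]
    rw [h3] at h2
    linarith
  have gL : 1 < dist (g L) 0 := by
    have h1 := hd 0 L
    simp only [p0, hr0, pow_zero, mul_one, Nat.floor_natCast, min_self, pt] at h1
    have h2 : |(γ L).1 - r0 * L| ≤ 4 * r0 := by
      refine le_trans ?_ h1
      rw [Prod.dist_eq]
      refine le_trans (le_of_eq ?_) (le_max_left _ _)
      simp [Real.dist_eq]
    have h3 := Complex.re_le_norm (g L)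
    rw [dist_zero_right]
    have h4 : (g L).re = (γ L).1 := rfl
    rw [abs_le] at h2
    linarith
  have hav : ∀ K ∈ S, ∀ t ∈ Icc (0 : ℝ) L, g t ∉ fill (closure (cluster S K)) := by
    intro K hK t ht hb
    have h1 : IsPreconnected (g '' Icc 0 L ∪ (fun s : ℝ => s • g L) '' Ici 1) :=
      (isPreconnected_Icc.image _ hgc.continuousOn).union (g L)
        ⟨L, ⟨Nat.cast_nonneg _, le_rfl⟩, rfl⟩ ⟨1, mem_Ici.2 le_rfl, one_smul _ _⟩
        (isPreconnected_Ici.image _ (by fun_prop))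
    have hcl : closure (cluster S K) ⊆ closedBall 0 1 :=
      closure_minimal ((cluster_sub hS1 hK).trans ball_subset_closedBall) isClosed_closedBall
    rw [dist_zero_right] at gL
    have h2 : g '' Icc 0 L ∪ (fun s : ℝ => s • g L) '' Ici 1 ⊆ (closure (cluster S K))ᶜ := by
      rintro _ (⟨s, -, rfl⟩ | ⟨s, hs, rfl⟩)
      · exact not_mem_closure_cluster hM hr hS hK fun n => ⟨_, pg n _, hd n s⟩
      · intro h
        have := hcl h
        rw [mem_closedBall, dist_zero_right, norm_smul, Real.norm_of_nonneg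
          (le_trans zero_le_one hs)] at this
        have : 1 ≤ s := hs
        nlinarith
    have hb' : Bornology.IsBounded (connectedComponentIn (closure (cluster S K))ᶜ (g t)) := hb
    have h3 := hb'.subset
      (h1.subset_connectedComponentIn (Or.inl ⟨t, ht, rfl⟩) h2)
    obtain ⟨R, hR⟩ := h3.exists_norm_le
    have h4 := hR _ (Or.inr ⟨|R| + 1, by simp, rfl⟩)
    rw [norm_smul, Real.norm_of_nonneg (by positivity)] at h4
    have := le_abs_self R
    have := abs_nonneg R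
    nlinarith
  obtain ⟨c, hc, e1, e2⟩ := first_exit_le hgc (Nat.cast_nonneg L) (p := 0) (R := 3 * ρ / 2)
    (by linarith) (by linarith)
  let σ : Path (g 0) (g c) :=
    { toFun := fun s => g (c * s)
      continuous_toFun := by fun_prop
      source' := by simp
      target' := by simp }
  have hσ : ∀ s : unitInterval, c * (s : ℝ) ∈ Icc 0 c := fun s =>
    ⟨mul_nonneg hc.1 s.2.1, mul_le_of_le_one_right hc.1 s.2.2⟩
  refine ⟨g 0, g c, σ, ?_, ?_, fun k => ?_⟩
  · rintro _ ⟨s, rfl⟩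
    refine ⟨?_, ?_⟩
    · exact mem_ball.2 ((e2 _ (hσ s)).trans_lt (by linarith))
    · simp only [mem_iUnion, not_exists]
      exact fun K hK => hav K hK _ ⟨(hσ s).1, (hσ s).2.trans hc.2⟩
  · have := dist_triangle (g c) (g 0) 0
    rw [dist_comm (g c) (g 0)] at this
    linarith
  · have hrk := rad_pos hM hr k
    have hsub : thickening (rad r0 M k) (range σ) ⊆ ⋃ i ∈ Finset.range (L * (6 * M) ^ k + 1),
        closedBall (toC (pt (rad r0 M k) (p k i))) (10 * rad r0 M k) := by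
      intro w hw
      obtain ⟨_, ⟨s, rfl⟩, hw⟩ := mem_thickening_iff.1 hw
      simp only [mem_iUnion, Finset.mem_range]
      refine ⟨⌊c * s * ((6 * M : ℕ) : ℝ) ^ k⌋₊, Nat.lt_succ_of_le (Nat.floor_le_of_le ?_), ?_⟩
      · push_cast
        gcongr
        exact (hσ s).2.trans hc.2
      · have h1 := hd k (c * s)
        have h2 := dist_toC (γ (c * s)) (pt (rad r0 M k) (p k ⌊c * s * ((6 * M : ℕ) : ℝ) ^ k⌋₊))
        have h3 := dist_triangle w (σ s)
          (toC (pt (rad r0 M k) (p k ⌊c * s * ((6 * M : ℕ) : ℝ) ^ k⌋₊)))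
        have h4 : σ s = toC (γ (c * s)) := rfl
        rw [mem_closedBall]
        rw [h4] at h3 hw
        linarith
    refine (measure_mono hsub).trans ((measure_biUnion_finset_le _ _).trans ?_)
    refine (Finset.sum_le_card_nsmul _ _ _ fun i _ => vol_ball_le _ (by positivity)).trans ?_
    rw [Finset.card_range, nsmul_eq_mul, ← ENNReal.ofReal_natCast,
      ← ENNReal.ofReal_mul (by positivity)]
    refine ENNReal.ofReal_le_ofReal ?_
    have hM0 : (0 : ℝ) < M := by exact_mod_cast (by omega : 0 < M)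
    have h1 : (1 : ℝ) ≤ (6 * M) ^ k := one_le_pow₀ (by
      have : (400 : ℝ) ≤ M := by exact_mod_cast hM
      linarith)
    calc ((L * (6 * M) ^ k + 1 : ℕ) : ℝ) * (4 * (10 * rad r0 M k) ^ 2)
        ≤ ((L + 1) * (6 * M) ^ k) * (4 * (10 * rad r0 M k) ^ 2) := by
          gcongr
          push_cast
          linarith
      _ = _ := by
          unfold rad
          rw [div_pow 6, mul_pow 6]
          field_simp
          ring

end Pool.Agent.P.MP_d66c6d_pr
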