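import Pool.Agent.P.MP_d66c6d_pr.Mfpp
import Pool.Agent.P.MP_d66c6d_pr.Det

/-! From a cheap path to a bound on the distance exponent. -/

namespace Pool.Agent.P.MP_d66c6d_pr

open MeasureTheory Set Metric Filter Topology
open scoped ENNReal

theorem ratio_low {x y : ℝ≥0∞} {u v c g : ℝ} (hc : 0 < c) (hg : 0 ≤ g)
    (hx : x ≤ ENNReal.ofReal u) (hy : ENNReal.ofReal v ≤ ENNReal.ofReal c * y)
    (h : c * (g * u) ≤ v) : ENNReal.ofReal g * x ≤ y := by
  refine (ENNReal.mul_le_mul_iff_right (a := ENNReal.ofReal c) (by simpa using hc)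
    ENNReal.ofReal_ne_top).1 (le_trans ?_ hy)
  refine (mul_le_mul_right (mul_le_mul_right hx _) _).trans ?_
  rw [← ENNReal.ofReal_mul hg, ← ENNReal.ofReal_mul hc.le]
  exact ENNReal.ofReal_le_ofReal h

theorem ratio_up {x y : ℝ≥0∞} {u v c g : ℝ} (hc : 0 < c) (hg : 0 ≤ g)
    (hx : ENNReal.ofReal u ≤ x) (hy : ENNReal.ofReal c * y ≤ ENNReal.ofReal v)
    (h : v ≤ c * (g * u)) : y ≤ ENNReal.ofReal g * x := by
  refine (ENNReal.mul_le_mul_iff_right (a := ENNReal.ofReal c) (by simpa using hc)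
    ENNReal.ofReal_ne_top).1 (le_trans hy ?_)
  refine le_trans ?_ (mul_le_mul_right (mul_le_mul_right hx _) _)
  rw [← ENNReal.ofReal_mul hg, ← ENNReal.ofReal_mul hc.le]
  exact ENNReal.ofReal_le_ofReal h

variable {Ω : Type} [MeasurableSpace Ω] {P : Measure Ω} [IsProbabilityMeasure P]
  {X : Ω → Set ℂ} {θ : ℝ}

theorem ratio_tendsto (hθ : IsDistExp P X θ) (hX : ∀ᵐ ω ∂P, IsCompact (X ω)) {s ρ lam : ℝ}
    (hs : 0 < s) (hρ : 0 < ρ) (hl : 1 < lam) {ε : ℕ → ℝ} (hε : ∀ k, 0 < ε k)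
    (hε0 : Tendsto ε atTop (𝓝 0)) :
    Tendsto (fun k => P {ω | ∃ x ∈ X ω, ∃ y ∈ X ω, ρ < dist x y ∧
      ¬ (ENNReal.ofReal (s ^ θ / s ^ 2 / lam) * mfpp (ε k) (X ω) x y ≤ mfpp (ε k / s) (X ω) x y ∧
        mfpp (ε k / s) (X ω) x y ≤ ENNReal.ofReal (s ^ θ / s ^ 2 * lam) * mfpp (ε k) (X ω) x y)})
      atTop (𝓝 0) := by
  obtain ⟨a, ha, hseq⟩ := hθ
  refine tendsto_of_subseq_tendsto fun ns hns => ?_
  obtain ⟨φ, -, D, hm, hmet, hr⟩ := hseq (fun n => ε (ns n)) (fun n => hε _) (hε0.comp hns)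
  refine ⟨φ, ENNReal.tendsto_nhds_zero.2 fun δ hδ => ?_⟩
  set B : ℕ → Set Ω := fun n => {ω | ∃ x ∈ X ω, ∃ y ∈ X ω, (x, y, D (X ω) x y) ∈
    {p : ℂ × ℂ × ℝ | ρ < dist p.1 p.2.1 ∧ p.2.2 < 1 / ((n : ℝ) + 1)}} with hB
  have hB0 : Tendsto (P ∘ B) atTop (𝓝 0) := by
    have ho : ∀ c : ℝ, IsOpen {p : ℂ × ℂ × ℝ | ρ < dist p.1 p.2.1 ∧ p.2.2 < c} := fun c =>
      IsOpen.and (isOpen_lt continuous_const (by fun_prop)) (isOpen_lt (by fun_prop) continuous_const)
    have h1 := tendsto_measure_iInter_atTop (μ := P) (s := B) (fun n => hm _ (ho _))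
      (fun n m hnm ω ⟨x, hx, y, hy, h1, h2⟩ => ⟨x, hx, y, hy, h1, h2.trans_le
        (Nat.one_div_le_one_div hnm)⟩) ⟨0, measure_ne_top _ _⟩
    have h2 : P (⋂ n, B n) = 0 := by
      refine measure_mono_null ?_ (ae_iff.1 (hX.and hmet))
      rintro ω hω ⟨h3, h4⟩
      obtain ⟨τ, hτ, h5⟩ := h4.exists_lower h3 hρ
      obtain ⟨n, hn⟩ := exists_nat_one_div_lt hτ
      obtain ⟨x, hx, y, hy, h6, h7⟩ := mem_iInter.1 hω n
      exact absurd (h5 x hx y hy (h7.trans hn)) (not_le.2 h6)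
    rwa [h2] at h1
  obtain ⟨n, hn⟩ := (ENNReal.tendsto_nhds_zero.1 hB0 (δ / 2) (ENNReal.half_pos hδ.ne')).exists
  set τ : ℝ := 1 / ((n : ℝ) + 1) with hτ
  have hτ0 : 0 < τ := by positivity
  set σ := s ^ θ with hσ
  have hσ0 : 0 < σ := Real.rpow_pos_of_pos hs _
  set κ := (lam - 1) / (lam + 1) with hκ
  have hκ0 : 0 < κ := div_pos (by linarith) (by linarith)
  have hκ1 : 1 + κ = lam * (1 - κ) := by rw [hκ]; field_simp; ring
  have h1 := (hr 1 one_pos).2 (κ * τ) (by positivity)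
  have h2 := (hr s hs).2 (κ * τ * σ) (by positivity)
  have h3 := h1.add h2
  rw [add_zero] at h3
  filter_upwards [ENNReal.tendsto_nhds_zero.1 h3 (δ / 2) (ENNReal.half_pos hδ.ne')] with k hk
  rw [← ENNReal.add_halves δ]
  refine le_trans ?_ (add_le_add hn hk)
  refine le_trans ?_ (add_le_add_right (measure_union_le _ _) _)
  refine le_trans (measure_mono_ae ?_) (measure_union_le _ _)
  filter_upwards [(hr s hs).1] with ω hsc
  rintro ⟨x, hx, y, hy, hxy, hbad⟩
  by_contra hno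
  have n1 := fun h => hno (Or.inl h)
  have n2 := fun h => hno (Or.inr (Or.inl h))
  have n3 := fun h => hno (Or.inr (Or.inr h))
  have hd : τ ≤ D (X ω) x y := not_lt.1 fun h => n1 ⟨x, hx, y, hy, hxy, h⟩
  have m2 : _ ∧ _ := not_not.1 fun h => n2 ⟨x, dil_one.symm ▸ hx, y, dil_one.symm ▸ hy, h⟩
  rw [dil_one] at m2
  have m3 : _ ∧ _ := not_not.1 fun h => n3 ⟨s * x, ⟨x, hx, rfl⟩, s * y, ⟨y, hy, rfl⟩, h⟩
  rw [hsc x hx y hy, mfpp_dil hs] at m3
  have hA := (ha _ (hε (ns (φ k)))).1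
  set A := a (ε (ns (φ k)))
  set d := D (X ω) x y
  have hl0 : 0 < lam := by linarith
  have e1 : κ * τ ≤ κ * d := by gcongr
  refine hbad ⟨ratio_low (by positivity) (by positivity) m2.2 m3.1 ?_,
    ratio_up (by positivity) (by positivity) m2.1 m3.2 ?_⟩
  · have : s ^ 2 * (σ / s ^ 2 / lam * (A * (d + κ * τ))) = A * σ * ((d + κ * τ) / lam) := by
      field_simp
    rw [this, show A * (σ * d - κ * τ * σ) = A * σ * (d - κ * τ) by ring]
    gcongr
    rw [div_le_iff₀ hl0]
    nlinarith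
  · have : s ^ 2 * (σ / s ^ 2 * lam * (A * (d - κ * τ))) = A * σ * (lam * (d - κ * τ)) := by
      field_simp
    rw [this, show A * (σ * d + κ * τ * σ) = A * σ * (d + κ * τ) by ring]
    gcongr
    nlinarith

open Classical in
noncomputable def cnt (p : ℕ → Prop) (k : ℕ) : ℕ := ((Finset.range k).filter p).card

theorem few_bad {B : ℕ → Set Ω} (hB : Tendsto (fun k => P (B k)) atTop (𝓝 0)) {C : Set Ω}
    (hC : P C ≠ 0) {η : ℝ} (hη : 0 < η) : ∀ᶠ k : ℕ in atTop, ∃ ω ∈ C,
      (cnt (fun j => ω ∈ B j) k : ℝ) ≤ η * k := by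
  have h1 : Tendsto (fun k => P.real (B k)) atTop (𝓝 0) :=
    (ENNReal.tendsto_toReal ENNReal.zero_ne_top).comp hB
  have hp : 0 < P.real C := ENNReal.toReal_pos hC (measure_ne_top _ _)
  filter_upwards [h1.cesaro.eventually (gt_mem_nhds (mul_pos hη hp)), eventually_gt_atTop 0]
    with k hk hk0
  by_contra h
  push Not at h
  have hk1 : (0 : ℝ) < k := by exact_mod_cast hk0
  rw [inv_mul_lt_iff₀ hk1] at hk
  let f : Ω → ℝ≥0∞ := fun ω => ∑ j ∈ Finset.range k, (toMeasurable P (B j)).indicator 1 ω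
  have hf : ∀ j, Measurable ((toMeasurable P (B j)).indicator (1 : Ω → ℝ≥0∞)) := fun j =>
    measurable_one.indicator (measurableSet_toMeasurable _ _)
  have h2 := mul_meas_ge_le_lintegral (μ := P) (f := f)
    (Finset.measurable_sum _ fun j _ => hf j) (ENNReal.ofReal (η * k))
  have h3 : ∫⁻ ω, f ω ∂P = ENNReal.ofReal (∑ j ∈ Finset.range k, P.real (B j)) := by
    rw [lintegral_finsetSum _ fun j _ => hf j, ENNReal.ofReal_sum_of_nonneg
      fun j _ => measureReal_nonneg]
    refine Finset.sum_congr rfl fun j _ => ?_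
    rw [lintegral_indicator_one (measurableSet_toMeasurable _ _), measure_toMeasurable,
      ofReal_measureReal]
  have h4 : C ⊆ {ω | ENNReal.ofReal (η * k) ≤ f ω} := by
    intro ω hω
    refine (ENNReal.ofReal_le_ofReal (h ω hω).le).trans ?_
    rw [ENNReal.ofReal_natCast, cnt, Finset.card_filter, Nat.cast_sum]
    refine Finset.sum_le_sum fun j _ => ?_
    split_ifs with hj
    · rw [indicator_of_mem (subset_toMeasurable _ _ hj)]
      simp
    · simp
  have h5 := (mul_le_mul_right (measure_mono h4) _).trans h2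
  rw [h3, ← ofReal_measureReal, ← ENNReal.ofReal_mul (by positivity),
    ENNReal.ofReal_le_ofReal_iff (Finset.sum_nonneg fun j _ => measureReal_nonneg)] at h5
  nlinarith

theorem sum_steps {u : ℕ → ℝ} {p : ℕ → Prop} {α L : ℝ} (h1 : ∀ j, ¬ p j → u j + α ≤ u (j + 1))
    (h2 : ∀ j, u j + α - L ≤ u (j + 1)) (k : ℕ) :
    u 0 + k * α - L * cnt p k ≤ u k := by
  unfold cnt
  induction k with
  | zero => simp
  | succ k ih =>
    rw [Finset.range_add_one, Finset.filter_insert]
    split_ifs with hk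
    · rw [Finset.card_insert_of_notMem (by simp)]
      push_cast
      linarith [h2 k]
    · push_cast
      linarith [h1 k hk]

theorem le_of_steps {t c : ℝ} (h : ∀ᶠ k : ℕ in atTop, k * t ≤ c) : t ≤ 0 := by
  by_contra ht
  push Not at ht
  obtain ⟨k, h1, h2⟩ := (h.and ((tendsto_natCast_atTop_atTop.atTop_mul_const ht).eventually
    (eventually_gt_atTop c))).exists
  linarith

theorem expo {M : ℕ} (hM : 400 ≤ M) (hθ : IsDistExp P X θ) (hX : ∀ᵐ ω ∂P, IsCompact (X ω))
    {r0 ρ C : ℝ} (hr : 0 < r0) (hρ : 0 < ρ) (hC : P {ω | CheapPath M r0 ρ C (X ω)} ≠ 0) :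
    1 ≤ θ ∧ θ ≤ 1 + Real.log 6 / Real.log M := by
  classical
  have hMR : (400 : ℝ) ≤ M := by exact_mod_cast hM
  have hM0 : (0 : ℝ) < M := by linarith
  have hlog : 0 < Real.log M := Real.log_pos (by linarith)
  have hε0 : Tendsto (rad r0 M) atTop (𝓝 0) :=
    tendsto_const_nhds.div_atTop (tendsto_pow_atTop_atTop_of_one_lt (by linarith))
  have hsucc : ∀ k, rad r0 M k / M = rad r0 M (k + 1) := fun k => by
    rw [rad_succ hM k]; field_simp
  set g := (θ - 2) * Real.log M with hg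
  have hg' : Real.log ((M : ℝ) ^ θ / M ^ 2) = g := by
    rw [Real.log_div (by positivity) (by positivity), Real.log_rpow hM0, Real.log_pow, hg]
    push_cast; ring
  set L := |g| + |Real.log ((2 * M + 5) ^ 2)| with hL
  have hL0 : 0 ≤ L := by positivity
  have key : ∀ t > (0 : ℝ), ∀ᶠ k : ℕ in atTop,
      k * (g - t - L * t - Real.log (6 / M)) ≤ Real.log C - Real.log (r0 * ρ) ∧
      k * (-g - t - L * t - Real.log M) ≤ Real.log C - Real.log (r0 * ρ) := by
    intro t ht
    have h1 := ratio_tendsto hθ hX hM0 (half_pos hρ) (Real.one_lt_exp_iff.2 ht)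
      (rad_pos hM hr) hε0
    filter_upwards [few_bad h1 hC ht] with k ⟨ω, ⟨x, y, γ, hγ, hxy, hcost⟩, hk⟩
    have hx : x ∈ X ω := hγ ⟨0, γ.source⟩
    have hy : y ∈ X ω := hγ ⟨1, γ.target⟩
    set m : ℕ → ℝ≥0∞ := fun j => mfpp (rad r0 M j) (X ω) x y with hm
    have hup : ∀ j, m j ≤ ENNReal.ofReal (C * (6 / (M : ℝ)) ^ j) := fun j =>
      (mfpp_le γ hγ).trans (hcost j)
    have hfin : ∀ j, m j ≠ ∞ := fun j => ne_top_of_le_ne_top ENNReal.ofReal_ne_top (hup j)
    have hlow : ∀ j, rad r0 M j * ρ ≤ (m j).toReal := fun j => by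
      rw [← ENNReal.ofReal_le_iff_le_toReal (hfin j)]
      refine le_trans (ENNReal.ofReal_le_ofReal ?_) (le_mfpp (rad_pos hM hr j))
      exact mul_le_mul_of_nonneg_left hxy (rad_pos hM hr j).le
    have hpos : ∀ j, 0 < (m j).toReal := fun j =>
      (mul_pos (rad_pos hM hr j) hρ).trans_le (hlow j)
    have hC0 : 0 < C := by
      by_contra h
      have h2 := hup 0
      rw [pow_zero, mul_one, ENNReal.ofReal_of_nonpos (not_lt.1 h), nonpos_iff_eq_zero] at h2
      simpa [h2] using hpos 0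
    have hup' : ∀ j, Real.log (m j).toReal ≤ Real.log C + j * Real.log (6 / M) := fun j => by
      rw [← Real.log_pow, ← Real.log_mul hC0.ne' (by positivity)]
      exact Real.log_le_log (hpos j) (ENNReal.toReal_le_of_le_ofReal (by positivity) (hup j))
    have hlow' : ∀ j, Real.log (r0 * ρ) - j * Real.log M ≤ Real.log (m j).toReal := fun j => by
      rw [← Real.log_pow, ← Real.log_div (by positivity) (by positivity)]
      refine Real.log_le_log (by positivity) (le_trans (le_of_eq ?_) (hlow j))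
      unfold rad; ring
    have conv : ∀ {i j : ℕ} {c : ℝ}, 0 < c → m i ≤ ENNReal.ofReal c * m j →
        Real.log (m i).toReal ≤ Real.log c + Real.log (m j).toReal := by
      intro i j c hc h
      rw [← Real.log_mul hc.ne' (hpos j).ne']
      refine Real.log_le_log (hpos i) ?_
      have := ENNReal.toReal_mono (ENNReal.mul_ne_top ENNReal.ofReal_ne_top (hfin j)) h
      rwa [ENNReal.toReal_mul, ENNReal.toReal_ofReal hc.le] at this
    have conv' : ∀ {i j : ℕ} {c : ℝ}, 0 < c → ENNReal.ofReal c * m j ≤ m i →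
        Real.log c + Real.log (m j).toReal ≤ Real.log (m i).toReal := by
      intro i j c hc h
      rw [← Real.log_mul hc.ne' (hpos j).ne']
      refine Real.log_le_log (mul_pos hc (hpos j)) ?_
      have := ENNReal.toReal_mono (hfin i) h
      rwa [ENNReal.toReal_mul, ENNReal.toReal_ofReal hc.le] at this
    set p : ℕ → Prop := fun j => ω ∈ {ω | ∃ x ∈ X ω, ∃ y ∈ X ω, ρ / 2 < dist x y ∧
      ¬ (ENNReal.ofReal ((M : ℝ) ^ θ / M ^ 2 / Real.exp t) * mfpp (rad r0 M j) (X ω) x y ≤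
        mfpp (rad r0 M j / M) (X ω) x y ∧ mfpp (rad r0 M j / M) (X ω) x y ≤
        ENNReal.ofReal ((M : ℝ) ^ θ / M ^ 2 * Real.exp t) * mfpp (rad r0 M j) (X ω) x y)} with hp
    have hgood : ∀ j, ¬ p j → g - t + Real.log (m j).toReal ≤ Real.log (m (j + 1)).toReal ∧
        Real.log (m (j + 1)).toReal ≤ g + t + Real.log (m j).toReal := by
      intro j hj
      have h2 : _ ∧ _ := not_not.1 fun h => hj ⟨x, hx, y, hy, by linarith, h⟩
      rw [hsucc] at h2
      have h3 := conv' (by positivity) h2.1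
      have h4 := conv (by positivity) h2.2
      rw [Real.log_div (by positivity) (by positivity), hg', Real.log_exp] at h3
      rw [Real.log_mul (by positivity) (by positivity), hg', Real.log_exp] at h4
      exact ⟨h3, h4⟩
    have hall : ∀ j, Real.log (m j).toReal ≤ Real.log ((2 * M + 5) ^ 2) +
        Real.log (m (j + 1)).toReal ∧ Real.log (m (j + 1)).toReal ≤ Real.log (m j).toReal := by
      intro j
      refine ⟨conv (by positivity) ?_, Real.log_le_log (hpos _) (ENNReal.toReal_mono (hfin j)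
        (mfpp_mono (rad_anti hM hr (Nat.le_succ j))))⟩
      have := mfpp_doubling (X := X ω) (x := x) (y := y) (rad_pos hM hr j) hM0
      rwa [hsucc] at this
    have a1 := le_abs_self g
    have a2 := neg_abs_le g
    have a3 := le_abs_self (Real.log ((2 * M + 5) ^ 2))
    have a4 := abs_nonneg (Real.log ((2 * M + 5) ^ 2))
    have s1 := sum_steps (u := fun j => Real.log (m j).toReal) (p := p) (α := g - t) (L := L)
      (fun j hj => by linarith [(hgood j hj).1]) (fun j => by linarith [(hall j).1]) k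
    have s2 := sum_steps (u := fun j => -Real.log (m j).toReal) (p := p) (α := -g - t) (L := L)
      (fun j hj => by linarith [(hgood j hj).2]) (fun j => by linarith [(hall j).2]) k
    have hk' : L * (cnt p k : ℝ) ≤ L * (t * k) := mul_le_mul_of_nonneg_left hk hL0
    have b1 := hup' k
    have b2 := hup' 0
    have b3 := hlow' k
    have b4 := hlow' 0
    simp only [Nat.cast_zero, zero_mul, add_zero, sub_zero] at b2 b4
    constructor <;> nlinarith
  have fin : ∀ c : ℝ, (∀ t > (0 : ℝ), c - t - L * t ≤ 0) → c ≤ 0 := by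
    intro c h
    refine le_of_forall_pos_le_add fun s hs => ?_
    have := h (s / (1 + L)) (by positivity)
    have e : s / (1 + L) + L * (s / (1 + L)) = s := by field_simp
    linarith
  have f1 := fin (g - Real.log (6 / M)) fun t ht => by
    linarith [le_of_steps ((key t ht).mono fun k hk => hk.1)]
  have f2 := fin (-g - Real.log M) fun t ht => by
    linarith [le_of_steps ((key t ht).mono fun k hk => hk.2)]
  rw [Real.log_div (by norm_num) hM0.ne'] at f1
  constructor
  · by_contra h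
    nlinarith
  · rw [← sub_le_iff_le_add', le_div_iff₀ hlog]
    nlinarith

end Pool.Agent.P.MP_d66c6d_pr
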