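import Mathlib

/-!
Whole-plane nested CLE (through Brownian loop soups), carpets, Minkowski first passage
percolation and the distance exponent.
A simple loop is recorded by the open domain it surrounds.
-/

namespace Pool.Agent.P.MP_d66c6d_pr

open MeasureTheory ProbabilityTheory Set Metric Filter Topology
open scoped ENNReal

/-- Continuous planar paths with time interval `[0,1]`, with the Borel sigma-algebra. -/
abbrev Br : Type := C(unitInterval, ℂ)

noncomputable instance instMeasBr : MeasurableSpace Br := borel Br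

instance instBorelBr : BorelSpace Br := ⟨rfl⟩

/-- `ν` is the law of the standard planar Brownian bridge from `0` to `0` of duration one:
a centred Gaussian measure whose two coordinates are uncorrelated and have covariance
`min s t - s t`. -/
structure IsBridge (ν : Measure Br) : Prop where
  gauss : IsGaussian ν
  mean : ∀ s, ∫ b, b s ∂ν = 0
  cov_re : ∀ s t : unitInterval, ∫ b, (b s).re * (b t).re ∂ν = min (s : ℝ) t - s * t
  cov_im : ∀ s t : unitInterval, ∫ b, (b s).im * (b t).im ∂ν = min (s : ℝ) t - s * t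
  cov_re_im : ∀ s t : unitInterval, ∫ b, (b s).re * (b t).im ∂ν = 0

/-- A rooted loop `(z, t, b)`: root `z`, duration `t`, and normalised bridge `b`. -/
abbrev Lp : Type := ℂ × ℝ × Br

/-- The trace `{z + √t b(s)}` of the loop of duration `t` rooted at `z`. -/
def trace (l : Lp) : Set ℂ := range fun s => l.1 + (√l.2.1 : ℂ) * l.2.2 s

/-- The Brownian loop measure `dA(z) ⊗ dt / (2 π t²) ⊗ ν` of Lawler and Werner. -/
noncomputable def loopMeasure (ν : Measure Br) : Measure Lp :=
  (volume : Measure ℂ).prod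
    ((((volume : Measure ℝ).restrict (Ioi 0)).withDensity
      fun t => ENNReal.ofReal (1 / (2 * Real.pi * t ^ 2))).prod ν)

/-- `N` is a Poisson point process with intensity `m`: the numbers of points in pairwise disjoint
measurable sets of finite mass are independent Poisson variables. -/
structure IsPPP {Ω E : Type} [MeasurableSpace Ω] [MeasurableSpace E] (P : Measure Ω)
    (m : Measure E) (N : Ω → Set E) : Prop where
  prob : IsProbabilityMeasure P
  meas : ∀ A, MeasurableSet A → m A ≠ ∞ → ∀ k : ℕ, MeasurableSet {ω | (N ω ∩ A).encard = k}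
  law : ∀ (n : ℕ) (A : Fin n → Set E) (k : Fin n → ℕ), (∀ i, MeasurableSet (A i)) →
    (∀ i, m (A i) ≠ ∞) → Pairwise (fun i j => Disjoint (A i) (A j)) →
    P {ω | ∀ i, (N ω ∩ A i).encard = k i} = ∏ i, poissonMeasure (m (A i)).toNNReal {k i}

/-- The intensity `c / 2`, `c = (3κ - 8)(6 - κ) / (2κ)`, of the loop soup that gives `CLE_κ`. -/
noncomputable def intensity (κ : ℝ) : ℝ≥0∞ := ENNReal.ofReal ((3 * κ - 8) * (6 - κ) / (4 * κ))

/-- `A` together with the bounded components of its complement. -/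
def fill (A : Set ℂ) : Set ℂ := {z | Bornology.IsBounded (connectedComponentIn Aᶜ z)}

/-- The cluster of `K` in `S`: the union of the members of `S` joined to `K` by a finite chain of
members of `S` in which consecutive ones intersect. -/
def cluster (S : Set (Set ℂ)) (K : Set ℂ) : Set ℂ :=
  ⋃₀ {K' | Relation.ReflTransGen (fun A B => B ∈ S ∧ (A ∩ B).Nonempty) K K'}

/-- The points of `U` surrounded by the outer boundary of a cluster of the loops of `S` that stay
in `U`. -/
def surrounded (S : Set (Set ℂ)) (U : Set ℂ) : Set ℂ :=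
  U ∩ ⋃ K ∈ {K ∈ S | K ⊆ U}, interior (fill (closure (cluster {K ∈ S | K ⊆ U} K)))

/-- The (non-nested) CLE in `U` built from the soup `S` (Sheffield-Werner): the domains surrounded
by the outer boundaries of the outermost clusters. -/
def cleIn (S : Set (Set ℂ)) (U : Set ℂ) : Set (Set ℂ) :=
  {V | ∃ z ∈ surrounded S U, V = connectedComponentIn (surrounded S U) z}

/-- Generation `k + 1` of the nested CLE in `U`: inside each domain of one generation, the next
soup is used. -/
def gen (S : ℕ → Set (Set ℂ)) (U : Set ℂ) : ℕ → Set (Set ℂ)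
  | 0 => cleIn (S 0) U
  | k + 1 => ⋃ V ∈ gen S U k, cleIn (S (k + 1)) V

/-- The nested CLE in `U`. -/
def nested (S : ℕ → Set (Set ℂ)) (U : Set ℂ) : Set (Set ℂ) := ⋃ k, gen S U k

/-- The loops of `G` inside the disc of radius `ρ`. -/
def within (ρ : ℝ) (G : Set (Set ℂ)) : Set (Set ℂ) := {V ∈ G | V ⊆ ball 0 ρ}

/-- `Γ` is a whole-plane nested `CLE_κ`: the local total-variation limit, as `R → ∞`, of the nested
`CLE_κ` in the disc of radius `R` built from independent Brownian loop soups of intensity `c / 2`.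
For all `ρ, η > 0` and all large `R` there is a coupling under which the loops inside the disc of
radius `ρ` are the same outside an event of probability at most `η`. -/
def IsWholePlaneCLE (ν : Measure Br) (κ : ℝ) {Ω : Type} [MeasurableSpace Ω] (P : Measure Ω)
    (Γ : Ω → Set (Set ℂ)) : Prop :=
  IsProbabilityMeasure P ∧
  ∃ (Ω₀ : Type) (_ : MeasurableSpace Ω₀) (_ : StandardBorelSpace Ω₀) (P₀ : Measure Ω₀)
    (N : Ω₀ → Set Lp), IsPPP P₀ (intensity κ • loopMeasure ν) N ∧
    ∀ ρ > (0 : ℝ), ∀ η > (0 : ℝ≥0∞), ∃ R₀ : ℝ, ∀ R ≥ R₀, ∃ Q : Measure (Ω × (ℕ → Ω₀)),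
      Q.map Prod.fst = P ∧ Q.map Prod.snd = Measure.infinitePi (fun _ : ℕ => P₀) ∧
      Q {p | within ρ (Γ p.1) ≠ within ρ (nested (fun k => trace '' N (p.2 k)) (ball 0 R))} ≤ η

/-- `V` is the domain surrounded by the largest loop of `G` inside the unit disc that
surrounds `0`. -/
def IsFirst (G : Set (Set ℂ)) (V : Set ℂ) : Prop :=
  V ∈ G ∧ 0 ∈ V ∧ closure V ⊆ ball 0 1 ∧
    ∀ W ∈ G, 0 ∈ W → closure W ⊆ ball 0 1 → W ⊆ V

/-- The carpet of the loop around `V`: the closed domain minus the domains surrounded by the other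
loops of `G` inside it. -/
def carpet (G : Set (Set ℂ)) (V : Set ℂ) : Set ℂ := closure V \ ⋃₀ {W ∈ G | W ⊂ V}

/-- The carpet `X(L₁)`. -/
def firstCarpet (G : Set (Set ℂ)) : Set ℂ := {z | ∃ V, IsFirst G V ∧ z ∈ carpet G V}

/-- Minkowski first passage percolation `D^ε_X(x, y)`. -/
noncomputable def mfpp (ε : ℝ) (X : Set ℂ) (x y : ℂ) : ℝ≥0∞ :=
  ⨅ (γ : Path x y) (_ : range γ ⊆ X), volume (thickening ε (range γ))

/-- `d` is a metric on `X` that induces the Euclidean topology. -/
structure IsCompatMetric (X : Set ℂ) (d : ℂ → ℂ → ℝ) : Prop where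
  eq_zero : ∀ x ∈ X, ∀ y ∈ X, d x y = 0 ↔ x = y
  symm : ∀ x ∈ X, ∀ y ∈ X, d x y = d y x
  triangle : ∀ x ∈ X, ∀ y ∈ X, ∀ z ∈ X, d x z ≤ d x y + d y z
  top : ∀ x ∈ X, ∀ η > (0 : ℝ), ∃ s > (0 : ℝ), ∀ y ∈ X,
    (dist x y < s → d x y < η) ∧ (d x y < s → dist x y < η)

/-- The dilation `r X`. -/
def dil (r : ℝ) (X : Set ℂ) : Set ℂ := (fun z => (r : ℂ) * z) '' X

/-- `θ` is the distance exponent of the random carpet `X`.  With `a ε` a median of
`sup D^ε_X`, every sequence `ε → 0` has a subsequence and an assignment `X ↦ D X` such that `D X`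
is measurable (its graph is a random set), is a.s. a metric inducing the Euclidean topology,
satisfies `D_{rX}(rx, ry) = r^θ D_X(x, y)` a.s., and `(a ε)⁻¹ D^ε → D` uniformly in probability on
`X` and on its dilations `r X`. -/
def IsDistExp {Ω : Type} [MeasurableSpace Ω] (P : Measure Ω) (X : Ω → Set ℂ) (θ : ℝ) : Prop :=
  ∃ a : ℝ → ℝ,
    (∀ ε > (0 : ℝ), 0 < a ε ∧
      2⁻¹ ≤ P {ω | ⨆ x ∈ X ω, ⨆ y ∈ X ω, mfpp ε (X ω) x y ≤ ENNReal.ofReal (a ε)} ∧
      2⁻¹ ≤ P {ω | ENNReal.ofReal (a ε) ≤ ⨆ x ∈ X ω, ⨆ y ∈ X ω, mfpp ε (X ω) x y}) ∧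
    ∀ e : ℕ → ℝ, (∀ n, 0 < e n) → Tendsto e atTop (𝓝 0) →
      ∃ φ : ℕ → ℕ, StrictMono φ ∧ ∃ D : Set ℂ → ℂ → ℂ → ℝ,
        (∀ U : Set (ℂ × ℂ × ℝ), IsOpen U →
          NullMeasurableSet {ω | ∃ x ∈ X ω, ∃ y ∈ X ω, (x, y, D (X ω) x y) ∈ U} P) ∧
        (∀ᵐ ω ∂P, IsCompatMetric (X ω) (D (X ω))) ∧
        ∀ r > (0 : ℝ),
          (∀ᵐ ω ∂P, ∀ x ∈ X ω, ∀ y ∈ X ω,
            D (dil r (X ω)) (r * x) (r * y) = r ^ θ * D (X ω) x y) ∧
          ∀ η > (0 : ℝ), Tendsto (fun n => P {ω | ∃ x ∈ dil r (X ω), ∃ y ∈ dil r (X ω),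
            ¬ (ENNReal.ofReal (a (e (φ n)) * (D (dil r (X ω)) x y - η)) ≤
                mfpp (e (φ n)) (dil r (X ω)) x y ∧
              mfpp (e (φ n)) (dil r (X ω)) x y ≤
                ENNReal.ofReal (a (e (φ n)) * (D (dil r (X ω)) x y + η)))}) atTop (𝓝 0)

end Pool.Agent.P.MP_d66c6d_pr
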