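import Pool.Agent.P.MP_d66c6d_pr.Defs

/-!
Whole-plane nested CLE as an ensemble of simple loops, built from Brownian loop soups.
-/

namespace Pool.Agent.P.MP_d66c6d_pr

open MeasureTheory ProbabilityTheory Set Metric Filter Topology
open scoped ENNReal

/-- `V` is the domain surrounded by a simple loop: the image of the unit disc under a
homeomorphism of the plane. -/
def IsJordan (V : Set ℂ) : Prop := ∃ φ : ℂ ≃ₜ ℂ, V = φ '' ball 0 1

/-- The domains surrounded by the outer boundaries of the clusters of the loops of `S` that stay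
in `U`. -/
def outers (S : Set (Set ℂ)) (U : Set ℂ) : Set (Set ℂ) :=
  {W | ∃ K ∈ S, K ⊆ U ∧ W = U ∩ interior (fill (closure (cluster {K ∈ S | K ⊆ U} K)))}

/-- The (non-nested) CLE in `U` built from the soup `S` (Sheffield-Werner): the domains surrounded
by the outer boundaries of the outermost clusters. -/
def cleIn2 (S : Set (Set ℂ)) (U : Set ℂ) : Set (Set ℂ) :=
  {W ∈ outers S U | ∀ W' ∈ outers S U, (W ∩ W').Nonempty → W' ⊆ W}

/-- Generation `k + 1` of the nested CLE in `U`: inside each domain of one generation, the next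
soup is used. -/
def gen2 (S : ℕ → Set (Set ℂ)) (U : Set ℂ) : ℕ → Set (Set ℂ)
  | 0 => cleIn2 (S 0) U
  | k + 1 => ⋃ V ∈ gen2 S U k, cleIn2 (S (k + 1)) V

/-- The nested CLE in `U`. -/
def nested2 (S : ℕ → Set (Set ℂ)) (U : Set ℂ) : Set (Set ℂ) := ⋃ k, gen2 S U k

/-- `Γ` is a whole-plane nested `CLE_κ`: a random ensemble of simple loops which is the local
total-variation limit, as `R → ∞`, of the nested `CLE_κ` in the disc of radius `R` built from
independent Brownian loop soups of intensity `c / 2`.  For all `ρ, η > 0` and all large `R` there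
is a coupling under which the loops inside the disc of radius `ρ` are the same outside an event of
probability at most `η`. -/
def IsCLE (ν : Measure Br) (κ : ℝ) {Ω : Type} [MeasurableSpace Ω] (P : Measure Ω)
    (Γ : Ω → Set (Set ℂ)) : Prop :=
  IsProbabilityMeasure P ∧ (∀ᵐ ω ∂P, ∀ V ∈ Γ ω, IsJordan V) ∧
  ∃ (Ω₀ : Type) (_ : MeasurableSpace Ω₀) (_ : StandardBorelSpace Ω₀) (P₀ : Measure Ω₀)
    (N : Ω₀ → Set Lp), IsPPP P₀ (intensity κ • loopMeasure ν) N ∧
    ∀ ρ > (0 : ℝ), ∀ η > (0 : ℝ≥0∞), ∃ R₀ : ℝ, ∀ R ≥ R₀, ∃ Q : Measure (Ω × (ℕ → Ω₀)),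
      Q.map Prod.fst = P ∧ Q.map Prod.snd = Measure.infinitePi (fun _ : ℕ => P₀) ∧
      Q {p | within ρ (Γ p.1) ≠ within ρ (nested2 (fun k => trace '' N (p.2 k)) (ball 0 R))} ≤ η

end Pool.Agent.P.MP_d66c6d_pr
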