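import Pool.Agent.P.MP_d66c6d_pr.Defs2

/-!
Whole-plane nested CLE and the distance exponent of a subsequential limit metric.
-/

namespace Pool.Agent.P.MP_d66c6d_pr

open MeasureTheory ProbabilityTheory Set Metric Filter Topology
open scoped ENNReal

/-- `Γ` is a whole-plane nested `CLE_κ`: the local total-variation limit, as `R → ∞`, of the nested
`CLE_κ` in the disc of radius `R` built from independent Brownian loop soups of intensity `c / 2`.
For all `ρ, η > 0` and all large `R` there is a coupling under which the loops inside the disc of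
radius `ρ` are the same outside an event of probability at most `η`. -/
def IsPlaneCLE (ν : Measure Br) (κ : ℝ) {Ω : Type} [MeasurableSpace Ω] (P : Measure Ω)
    (Γ : Ω → Set (Set ℂ)) : Prop :=
  IsProbabilityMeasure P ∧
  ∃ (Ω₀ : Type) (_ : MeasurableSpace Ω₀) (_ : StandardBorelSpace Ω₀) (P₀ : Measure Ω₀)
    (N : Ω₀ → Set Lp), IsPPP P₀ (intensity κ • loopMeasure ν) N ∧
    ∀ ρ > (0 : ℝ), ∀ η > (0 : ℝ≥0∞), ∃ R₀ : ℝ, ∀ R ≥ R₀, ∃ Q : Measure (Ω × (ℕ → Ω₀)),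
      Q.map Prod.fst = P ∧ Q.map Prod.snd = Measure.infinitePi (fun _ : ℕ => P₀) ∧
      Q {p | within ρ (Γ p.1) ≠ within ρ (nested2 (fun k => trace '' N (p.2 k)) (ball 0 R))} ≤ η

/-- `θ` is the exponent of a subsequential limit metric of the random carpet `X`.  There are one
sequence `e n → 0`, medians `a n` of `sup D^{e n}_X`, and an assignment `X ↦ D X` such that `D X`
is measurable (its graph is a random set), is a.s. a metric inducing the Euclidean topology,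
satisfies `D_{rX}(rx, ry) = r^θ D_X(x, y)` a.s., and `(a n)⁻¹ D^{e n} → D` uniformly in probability
on `X` and on its dilations `r X`. -/
def IsLimitExp {Ω : Type} [MeasurableSpace Ω] (P : Measure Ω) (X : Ω → Set ℂ) (θ : ℝ) : Prop :=
  ∃ (e a : ℕ → ℝ) (D : Set ℂ → ℂ → ℂ → ℝ),
    (∀ n, 0 < e n) ∧ Tendsto e atTop (𝓝 0) ∧
    (∀ n, 0 < a n ∧
      2⁻¹ ≤ P {ω | ⨆ x ∈ X ω, ⨆ y ∈ X ω, mfpp (e n) (X ω) x y ≤ ENNReal.ofReal (a n)} ∧
      2⁻¹ ≤ P {ω | ENNReal.ofReal (a n) ≤ ⨆ x ∈ X ω, ⨆ y ∈ X ω, mfpp (e n) (X ω) x y}) ∧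
    (∀ U : Set (ℂ × ℂ × ℝ), IsOpen U →
      NullMeasurableSet {ω | ∃ x ∈ X ω, ∃ y ∈ X ω, (x, y, D (X ω) x y) ∈ U} P) ∧
    (∀ᵐ ω ∂P, IsCompatMetric (X ω) (D (X ω))) ∧
    ∀ r > (0 : ℝ),
      (∀ᵐ ω ∂P, ∀ x ∈ X ω, ∀ y ∈ X ω,
        D (dil r (X ω)) (r * x) (r * y) = r ^ θ * D (X ω) x y) ∧
      ∀ η > (0 : ℝ), Tendsto (fun n => P {ω | ∃ x ∈ dil r (X ω), ∃ y ∈ dil r (X ω),
        ¬ (ENNReal.ofReal (a n * (D (dil r (X ω)) x y - η)) ≤ mfpp (e n) (dil r (X ω)) x y ∧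
          mfpp (e n) (dil r (X ω)) x y ≤
            ENNReal.ofReal (a n * (D (dil r (X ω)) x y + η)))}) atTop (𝓝 0)

end Pool.Agent.P.MP_d66c6d_pr
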