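import Pool.Agent.P.MP_d66c6d_pr.Defs

/-! Mass of families of loops, and void probabilities of a Poisson process. -/

namespace Pool.Agent.P.MP_d66c6d_pr

open MeasureTheory ProbabilityTheory Set Metric Filter Topology
open scoped ENNReal

noncomputable def root (l : Lp) : ℂ := l.1 + (√l.2.1 : ℂ) * l.2.2 0

noncomputable def sz (l : Lp) : ℝ := 2 * √l.2.1 * ‖l.2.2‖

theorem root_mem (l : Lp) : root l ∈ trace l := ⟨0, rfl⟩

theorem trace_sub (l : Lp) : trace l ⊆ closedBall (root l) (sz l) := by
  rintro _ ⟨s, rfl⟩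
  rw [mem_closedBall, dist_eq_norm, root, sz, add_sub_add_left_eq_sub, ← mul_sub, norm_mul,
    Complex.norm_real, Real.norm_of_nonneg (Real.sqrt_nonneg _)]
  have h1 := norm_sub_le (l.2.2 s) (l.2.2 0)
  have h2 := l.2.2.norm_coe_le_norm s
  have h3 := l.2.2.norm_coe_le_norm 0
  have := Real.sqrt_nonneg l.2.1
  nlinarith

theorem trace_pathConn (l : Lp) : IsPathConnected (trace l) := by
  have : PathConnectedSpace unitInterval := isPathConnected_iff_pathConnectedSpace.1
    ((convex_Icc (0 : ℝ) 1).isPathConnected ⟨0, by simp⟩)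
  exact isPathConnected_range (by fun_prop)

theorem meas_root : Measurable root := by
  apply Continuous.measurable
  unfold root
  fun_prop

theorem meas_sz : Measurable sz := by
  apply Continuous.measurable
  unfold sz
  fun_prop

noncomputable def timeMeasure : Measure ℝ :=
  ((volume : Measure ℝ).restrict (Ioi 0)).withDensity
    fun t => ENNReal.ofReal (1 / (2 * Real.pi * t ^ 2))

instance : SFinite timeMeasure := by unfold timeMeasure; infer_instance

theorem time_Ioi {u : ℝ} (hu : 0 < u) :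
    timeMeasure (Ioi u) = ENNReal.ofReal (1 / (2 * Real.pi * u)) := by
  unfold timeMeasure
  rw [withDensity_apply _ measurableSet_Ioi, Measure.restrict_restrict measurableSet_Ioi,
    inter_eq_left.2 (Ioi_subset_Ioi hu.le)]
  have h1 : ∀ t ∈ Ioi u, ENNReal.ofReal (1 / (2 * Real.pi * t ^ 2)) =
      ENNReal.ofReal (1 / (2 * Real.pi) * t ^ (-2 : ℝ)) := by
    intro t ht
    have : 0 < t := hu.trans ht
    congr 1
    rw [Real.rpow_neg this.le, Real.rpow_two]
    field_simp
  rw [setLIntegral_congr_fun measurableSet_Ioi h1, ← ofReal_integral_eq_lintegral_ofReal,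
    integral_const_mul, integral_Ioi_rpow_of_lt (by norm_num) hu]
  · congr 1
    rw [show (-2 : ℝ) + 1 = -1 by norm_num, Real.rpow_neg_one]
    field_simp
  · exact (integrableOn_Ioi_rpow_of_lt (by norm_num) hu).const_mul _
  · filter_upwards [ae_restrict_mem measurableSet_Ioi] with t ht
    have : 0 < t := hu.trans ht
    positivity

theorem time_le {s β : ℝ} (hs : 0 < s) (hβ : 0 ≤ β) :
    timeMeasure {t | s < 2 * √t * β} ≤ ENNReal.ofReal (β ^ 2) * ENNReal.ofReal (1 / s ^ 2) := by
  rcases hβ.eq_or_lt with h | h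
  · subst h
    have : {t : ℝ | s < 2 * √t * 0} = ∅ := by
      ext t; simp [hs.le]
    rw [this]; simp
  · have hsub : {t | s < 2 * √t * β} ⊆ Ioi (s ^ 2 / (4 * β ^ 2)) := by
      intro t ht
      simp only [mem_ofPred_eq] at ht
      have h0 : 0 < √t := by
        by_contra h0
        have : √t = 0 := le_antisymm (not_lt.1 h0) (Real.sqrt_nonneg _)
        rw [this] at ht
        linarith
      have h1 : √t ^ 2 = t := Real.sq_sqrt (Real.sqrt_pos.1 h0).le
      rw [mem_Ioi, div_lt_iff₀ (by positivity)]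
      nlinarith
    refine (measure_mono hsub).trans ?_
    rw [time_Ioi (by positivity), ← ENNReal.ofReal_mul (by positivity)]
    refine ENNReal.ofReal_le_ofReal ?_
    have := Real.pi_gt_three
    rw [div_le_iff₀ (by positivity)]
    have e : β ^ 2 * (1 / s ^ 2) * (2 * Real.pi * (s ^ 2 / (4 * β ^ 2))) = Real.pi / 2 := by
      field_simp; ring
    rw [e]; linarith

theorem exists_mass {ν : Measure Br} (hν : IsBridge ν) : ∃ K : ℝ, 0 < K ∧
    ∀ B : Set ℂ, MeasurableSet B → ∀ s > (0 : ℝ),
      loopMeasure ν {l | root l ∈ B ∧ s < sz l} ≤ volume B * ENNReal.ofReal (K / s ^ 2) := by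
  have := hν.gauss
  have hint : Integrable (fun b : Br => ‖b‖ ^ 2) ν :=
    (IsGaussian.memLp_two_id (μ := ν)).integrable_norm_pow (by norm_num)
  refine ⟨(∫ b, ‖b‖ ^ 2 ∂ν) + 1, by positivity, fun B hB s hs => ?_⟩
  have hm : MeasurableSet {l : Lp | root l ∈ B ∧ s < sz l} :=
    (meas_root hB).inter (measurableSet_lt measurable_const meas_sz)
  have hm2 : MeasurableSet {y : ℝ × Br | s < 2 * √y.1 * ‖y.2‖} :=
    measurableSet_lt measurable_const (Continuous.measurable (by fun_prop))
  change (volume : Measure ℂ).prod (timeMeasure.prod ν) _ ≤ _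
  rw [Measure.prod_apply_symm hm]
  have h1 : ∀ y : ℝ × Br, (volume : Measure ℂ) ((fun x => (x, y)) ⁻¹'
      {l : Lp | root l ∈ B ∧ s < sz l}) =
        {y : ℝ × Br | s < 2 * √y.1 * ‖y.2‖}.indicator (fun _ => volume B) y := by
    intro y
    by_cases hy : s < 2 * √y.1 * ‖y.2‖
    · rw [indicator_of_mem (by exact hy), ← measure_preimage_add_right volume
        ((√y.1 : ℂ) * y.2 0) B]
      congr 1
      ext x
      simp [root, sz, hy]
    · rw [indicator_of_notMem (by exact hy)]
      convert measure_empty (μ := (volume : Measure ℂ))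
      ext x
      simp [root, sz, hy]
  simp_rw [h1]
  rw [lintegral_indicator_const hm2, Measure.prod_apply_symm hm2]
  gcongr
  calc ∫⁻ b, timeMeasure ((fun x => (x, b)) ⁻¹' {y : ℝ × Br | s < 2 * √y.1 * ‖y.2‖}) ∂ν
      ≤ ∫⁻ b, ENNReal.ofReal (‖b‖ ^ 2) * ENNReal.ofReal (1 / s ^ 2) ∂ν :=
        lintegral_mono fun b => time_le hs (norm_nonneg b)
    _ = ENNReal.ofReal (∫ b, ‖b‖ ^ 2 ∂ν) * ENNReal.ofReal (1 / s ^ 2) := by
        rw [lintegral_mul_const' _ _ ENNReal.ofReal_ne_top,
          ofReal_integral_eq_lintegral_ofReal hint (Eventually.of_forall fun b => by positivity)]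
    _ ≤ _ := by
        rw [← ENNReal.ofReal_mul (integral_nonneg fun b => by positivity)]
        refine ENNReal.ofReal_le_ofReal ?_
        rw [mul_one_div]
        gcongr
        linarith

theorem mass_null {ν : Measure Br} (hν : IsBridge ν) : loopMeasure ν {l | sz l ≤ 0} = 0 := by
  have := hν.gauss
  have hnd : ∀ x, ν ≠ Measure.dirac x := by
    intro x hx
    have hs : (1 / 2 : ℝ) ∈ unitInterval := ⟨by norm_num, by norm_num⟩
    have h1 := hν.mean ⟨_, hs⟩
    have h2 := hν.cov_re ⟨_, hs⟩ ⟨_, hs⟩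
    rw [hx, integral_dirac] at h1 h2
    rw [h1] at h2
    norm_num at h2
  have := IsGaussian.nullSingletonClass hnd
  have hsub : {l : Lp | sz l ≤ 0} ⊆ univ ×ˢ (Iic 0 ×ˢ univ ∪ univ ×ˢ {0}) := by
    intro l hl
    simp only [mem_ofPred_eq, sz] at hl
    refine ⟨trivial, ?_⟩
    by_cases ht : l.2.1 ≤ 0
    · exact Or.inl ⟨ht, trivial⟩
    · refine Or.inr ⟨trivial, ?_⟩
      have := Real.sqrt_pos.2 (not_le.1 ht)
      have h2 : ‖l.2.2‖ ≤ 0 := by
        by_contra h2
        have : 0 < 2 * √l.2.1 * ‖l.2.2‖ := by have := not_le.1 h2; positivity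
        linarith
      exact norm_le_zero_iff.1 h2
  refine measure_mono_null hsub ?_
  change (volume : Measure ℂ).prod (timeMeasure.prod ν) _ = _
  rw [Measure.prod_prod, measure_union_null, mul_zero]
  · rw [Measure.prod_prod]
    have : timeMeasure (Iic 0) = 0 := by
      refine withDensity_absolutelyContinuous _ _ ?_
      rw [Measure.restrict_apply measurableSet_Iic, Iic_inter_Ioi]
      simp
    rw [this, zero_mul]
  · rw [Measure.prod_prod, measure_singleton, mul_zero]

section PPP

variable {Ω E : Type} [MeasurableSpace Ω] [MeasurableSpace E] {P : Measure Ω} {m : Measure E}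
  {N : Ω → Set E}

def void (N : Ω → Set E) (A : Set E) : Set Ω := {ω | N ω ∩ A = ∅}

omit [MeasurableSpace Ω] [MeasurableSpace E] in
theorem void_eq (A : Set E) : void N A = {ω | (N ω ∩ A).encard = (0 : ℕ)} := by
  ext ω; simp [void]

theorem IsPPP.meas_void (h : IsPPP P m N) {A : Set E} (hA : MeasurableSet A) (hA' : m A ≠ ∞) :
    MeasurableSet (void N A) := void_eq (N := N) A ▸ h.meas A hA hA' 0

theorem IsPPP.prob_void (h : IsPPP P m N) {A : Set E} (hA : MeasurableSet A) (hA' : m A ≠ ∞) :
    P (void N A) = ENNReal.ofReal (Real.exp (-(m A).toReal)) := by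
  have := h.law 1 (fun _ => A) (fun _ => 0) (fun _ => hA) (fun _ => hA')
    (fun i j hij => (hij (Subsingleton.elim _ _)).elim)
  simp only [forall_const, Finset.univ_unique, Finset.prod_singleton,
    poissonMeasure_singleton] at this
  rw [void_eq, this]
  simp [ENNReal.toReal]

theorem IsPPP.void_ne (h : IsPPP P m N) {A : Set E} (hA : MeasurableSet A) (hA' : m A ≠ ∞) :
    P (void N A) ≠ 0 := by
  rw [h.prob_void hA hA']
  simpa using Real.exp_pos _

theorem IsPPP.void_compl (h : IsPPP P m N) {A : Set E} (hA : MeasurableSet A) (hA' : m A ≠ ∞) :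
    P.real (void N A)ᶜ ≤ (m A).toReal := by
  have := h.prob
  rw [probReal_compl_eq_one_sub (h.meas_void hA hA'), measureReal_def, h.prob_void hA hA',
    ENNReal.toReal_ofReal (Real.exp_pos _).le]
  linarith [Real.add_one_le_exp (-(m A).toReal)]

theorem IsPPP.indep_void (h : IsPPP P m N) {ι : Type*} {A : ι → Set E}
    (hA : ∀ i, MeasurableSet (A i)) (hA' : ∀ i, m (A i) ≠ ∞)
    (hd : Pairwise fun i j => Disjoint (A i) (A j)) : iIndepSet (fun i => void N (A i)) P := by
  rw [iIndepSet_iff_meas_biInter fun i => h.meas_void (hA i) (hA' i)]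
  intro s
  let e := s.equivFin.symm
  have := h.law s.card (fun i => A (e i)) (fun _ => 0) (fun _ => hA _) (fun _ => hA' _)
    (fun i j hij => hd fun hh => hij (e.injective (Subtype.ext hh)))
  have e1 : ⋂ i ∈ s, void N (A i) = {ω | ∀ i, (N ω ∩ A (e i)).encard = (0 : ℕ)} := by
    ext ω
    simp only [mem_iInter, void, mem_ofPred_eq, Nat.cast_zero, encard_eq_zero]
    exact ⟨fun hh i => hh _ (e i).2, fun hh i hi => by simpa using hh (e.symm ⟨i, hi⟩)⟩
  rw [e1, this, ← Finset.prod_coe_sort s, ← e.prod_comp]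
  refine Finset.prod_congr rfl fun i _ => ?_
  rw [h.prob_void (hA _) (hA' _), poissonMeasure_singleton]
  simp [ENNReal.toReal]

end PPP

end Pool.Agent.P.MP_d66c6d_pr
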