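import Mathlib

/-! Hierarchical good boxes and a path through them. -/

namespace Pool.Agent.P.MP_d66c6d_pr

open Set Metric Filter Topology

/-- sup-distance at most `k` on the lattice -/
def nr (c c' : ℤ × ℤ) (k : ℤ) : Prop := |c.1 - c'.1| ≤ k ∧ |c.2 - c'.2| ≤ k

def mulc (M : ℕ) (c : ℤ × ℤ) : ℤ × ℤ := ((M : ℤ) * c.1, (M : ℤ) * c.2)

def badd (M : ℕ) (ξ : ℕ → ℤ × ℤ → Prop) : ℕ → ℕ → ℤ × ℤ → Prop
  | 0, _, _ => False
  | d + 1, n, c => (∃ c', nr c c' 9 ∧ ξ n c') ∨ ∃ c1 c2, nr c1 (mulc M c) (7 * M) ∧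
      nr c2 (mulc M c) (7 * M) ∧ ¬ nr c1 c2 28 ∧ badd M ξ d (n + 1) c1 ∧ badd M ξ d (n + 1) c2

def Good (M : ℕ) (ξ : ℕ → ℤ × ℤ → Prop) (n : ℕ) (c : ℤ × ℤ) : Prop := ∀ d, ¬ badd M ξ d n c

variable {M : ℕ} {ξ : ℕ → ℤ × ℤ → Prop}

theorem badd_succ : ∀ (d n : ℕ) (c : ℤ × ℤ), badd M ξ d n c → badd M ξ (d + 1) n c
  | 0, _, _, h => h.elim
  | d + 1, n, c, h => by
    rcases h with h | ⟨c1, c2, h1, h2, h3, h4, h5⟩
    · exact Or.inl h
    · exact Or.inr ⟨c1, c2, h1, h2, h3, badd_succ d _ _ h4, badd_succ d _ _ h5⟩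

theorem badd_mono {d d' n : ℕ} {c : ℤ × ℤ} (hd : d ≤ d') (h : badd M ξ d n c) :
    badd M ξ d' n c := by
  induction hd with
  | refl => exact h
  | step _ ih => exact badd_succ _ _ _ ih

theorem Good.near {n : ℕ} {c c' : ℤ × ℤ} (h : Good M ξ n c) (hc : nr c c' 9) : ¬ ξ n c' :=
  fun hx => h 1 (Or.inl ⟨c', hc, hx⟩)

theorem Good.sub {n : ℕ} {c c1 c2 : ℤ × ℤ} (h : Good M ξ n c) (h1 : nr c1 (mulc M c) (7 * M))
    (h2 : nr c2 (mulc M c) (7 * M)) (b1 : ¬ Good M ξ (n + 1) c1) (b2 : ¬ Good M ξ (n + 1) c2) :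
    nr c1 c2 28 := by
  by_contra hn
  simp only [Good, not_forall, not_not] at b1 b2
  obtain ⟨d1, b1⟩ := b1
  obtain ⟨d2, b2⟩ := b2
  exact h (max d1 d2 + 1) (Or.inr ⟨c1, c2, h1, h2, hn, badd_mono (le_max_left _ _) b1,
    badd_mono (le_max_right _ _) b2⟩)

theorem exists_entry (n : ℕ) (c : ℤ × ℤ) : ∃ e : ℤ × ℤ, Good M ξ n c →
    nr e (mulc M c) 113 ∧ ∀ β, nr β (mulc M c) (7 * M) → ¬ Good M ξ (n + 1) β → ¬ nr e β 28 := by
  by_cases hg : Good M ξ n c
  swap
  · exact ⟨0, fun h => (hg h).elim⟩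
  by_cases hb : ∃ β, nr β (mulc M c) (7 * M) ∧ ¬ Good M ξ (n + 1) β
  · obtain ⟨β, hβ, hβb⟩ := hb
    by_cases hc : nr (mulc M c) β 56
    · refine ⟨((mulc M c).1 + 113, (mulc M c).2), fun _ => ⟨?_, fun β' h1 h2 h3 => ?_⟩⟩
      · simp [nr]
      · have := hg.sub hβ h1 hβb h2
        simp only [nr, abs_le] at *
        omega
    · refine ⟨mulc M c, fun _ => ⟨?_, fun β' h1 h2 h3 => ?_⟩⟩
      · simp [nr]
      · have := hg.sub hβ h1 hβb h2
        simp only [nr, abs_le] at *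
        omega
  · refine ⟨mulc M c, fun _ => ⟨?_, fun β' h1 h2 _ => hb ⟨β', h1, h2⟩⟩⟩
    simp [nr]

/-- straight king-move walk -/
def leg (x y : ℤ × ℤ) (k : ℕ) : ℤ × ℤ :=
  (x.1 + max (-(k : ℤ)) (min k (y.1 - x.1)), x.2 + max (-(k : ℤ)) (min k (y.2 - x.2)))

def inBox (x y w : ℤ × ℤ) : Prop :=
  min x.1 y.1 ≤ w.1 ∧ w.1 ≤ max x.1 y.1 ∧ min x.2 y.2 ≤ w.2 ∧ w.2 ≤ max x.2 y.2

theorem leg_zero (x y : ℤ × ℤ) : leg x y 0 = x := by
  ext <;> simp only [leg] <;> omega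

theorem leg_end {x y : ℤ × ℤ} {D : ℕ} (h : nr x y D) : leg x y D = y := by
  simp only [nr, abs_le] at h
  ext <;> simp only [leg] <;> omega

theorem leg_step (x y : ℤ × ℤ) (k : ℕ) : nr (leg x y k) (leg x y (k + 1)) 1 := by
  simp only [nr, abs_le, leg]
  push_cast
  omega

theorem leg_box (x y : ℤ × ℤ) (k : ℕ) : inBox x y (leg x y k) := by
  simp only [inBox, leg]
  omega

theorem exists_corners (x y β : ℤ × ℤ) (D : ℤ) (hx : ¬ nr x β 28) (hy : ¬ nr y β 28)
    (hxy : nr x y D) : ∃ z1 z2 : ℤ × ℤ, nr x z1 (D + 57) ∧ nr z1 z2 (D + 57) ∧ nr z2 y (D + 57) ∧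
      (∀ w, inBox x z1 w ∨ inBox z1 z2 w ∨ inBox z2 y w → ¬ nr w β 28 ∧ nr w x (D + 57)) := by
  obtain ⟨x1, x2⟩ := x
  obtain ⟨y1, y2⟩ := y
  obtain ⟨b1, b2⟩ := β
  simp only [nr, abs_le, inBox] at *
  by_cases h1 : x1 - b1 ≤ 28 ∧ -28 ≤ x1 - b1
  · by_cases h2 : y1 - b1 ≤ 28 ∧ -28 ≤ y1 - b1
    · refine ⟨(b1 + 29, x2), (b1 + 29, y2), ?_, ?_, ?_, ?_⟩
      · omega
      · omega
      · omega
      · rintro ⟨w1, w2⟩ hw
        simp only at hw ⊢
        omega
    · refine ⟨(y1, x2), (y1, x2), ?_, ?_, ?_, ?_⟩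
      · omega
      · omega
      · omega
      · rintro ⟨w1, w2⟩ hw
        simp only at hw ⊢
        omega
  · by_cases h2 : y2 - b2 ≤ 28 ∧ -28 ≤ y2 - b2
    · refine ⟨(x1, b2 + 29), (y1, b2 + 29), ?_, ?_, ?_, ?_⟩
      · omega
      · omega
      · omega
      · rintro ⟨w1, w2⟩ hw
        simp only at hw ⊢
        omega
    · refine ⟨(x1, y2), (x1, y2), ?_, ?_, ?_, ?_⟩
      · omega
      · omega
      · omega
      · rintro ⟨w1, w2⟩ hw
        simp only at hw ⊢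
        omega

theorem exists_route (x y β : ℤ × ℤ) (D : ℤ) (E : ℕ) (hE : D + 57 ≤ E) (hx : ¬ nr x β 28)
    (hy : ¬ nr y β 28) (hxy : nr x y D) : ∃ w : ℕ → ℤ × ℤ, w 0 = x ∧ w (3 * E) = y ∧
      (∀ k, nr (w k) (w (k + 1)) 1) ∧ ∀ k, ¬ nr (w k) β 28 ∧ nr (w k) x (D + 57) := by
  obtain ⟨z1, z2, h1, h2, h3, h4⟩ := exists_corners x y β D hx hy hxy
  have up : ∀ {a b : ℤ × ℤ}, nr a b (D + 57) → nr a b E := fun h =>
    ⟨h.1.trans hE, h.2.trans hE⟩
  have e1 := leg_end (up h1)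
  have e2 := leg_end (up h2)
  have e3 := leg_end (up h3)
  refine ⟨fun k => if k ≤ E then leg x z1 k else if k ≤ 2 * E then leg z1 z2 (k - E)
    else leg z2 y (k - 2 * E), ?_, ?_, ?_, ?_⟩
  · simp [leg_zero]
  · by_cases hE0 : E = 0
    · subst hE0
      simp only [mul_zero, le_refl, if_true]
      rw [e1, ← e3, leg_zero, ← e2, leg_zero]
    · have a1 : ¬ 3 * E ≤ E := by omega
      have a2 : ¬ 3 * E ≤ 2 * E := by omega
      simp only [a1, a2, if_false]
      rw [show 3 * E - 2 * E = E by omega, e3]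
  · intro k
    by_cases k1 : k + 1 ≤ E
    · simp only [k1, show k ≤ E by omega, if_true]
      exact leg_step _ _ _
    by_cases k2 : k + 1 ≤ 2 * E
    · by_cases k3 : k ≤ E
      · have : k = E := by omega
        subst this
        simp only [k1, k2, le_refl, if_true, if_false]
        rw [e1, show k + 1 - k = 0 + 1 by omega]
        have := leg_step z1 z2 0
        rwa [leg_zero] at this
      · simp only [k1, k2, k3, show k ≤ 2 * E by omega, if_true, if_false]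
        rw [show k + 1 - E = (k - E) + 1 by omega]
        exact leg_step _ _ _
    · by_cases k3 : k ≤ E
      · have hk : k = E := by omega
        have hE0 : E = 0 := by omega
        subst hk
        subst hE0
        simp only [k1, k2, le_refl, if_true, if_false]
        rw [e1]
        have := leg_step z2 y 0
        rw [leg_zero] at this e2
        rw [e2]
        simpa using this
      · by_cases k4 : k ≤ 2 * E
        · have hk : k = 2 * E := by omega
          simp only [k1, k2, k3, k4, if_true, if_false]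
          rw [show k - E = E by omega, e2, show k + 1 - 2 * E = 0 + 1 by omega]
          have := leg_step z2 y 0
          rwa [leg_zero] at this
        · simp only [k1, k2, k3, k4, if_false]
          rw [show k + 1 - 2 * E = (k - 2 * E) + 1 by omega]
          exact leg_step _ _ _
  · intro k
    apply h4
    dsimp only
    split_ifs
    · exact Or.inl (leg_box _ _ _)
    · exact Or.inr (Or.inl (leg_box _ _ _))
    · exact Or.inr (Or.inr (leg_box _ _ _))

theorem exists_refine (hM : 400 ≤ M) (ent : ℕ → ℤ × ℤ → ℤ × ℤ)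
    (hent : ∀ n c, Good M ξ n c → nr (ent n c) (mulc M c) 113 ∧
      ∀ β, nr β (mulc M c) (7 * M) → ¬ Good M ξ (n + 1) β → ¬ nr (ent n c) β 28)
    (n : ℕ) (u v : ℤ × ℤ) : ∃ w : ℕ → ℤ × ℤ, Good M ξ n u → Good M ξ n v → nr u v 1 →
      w 0 = ent n u ∧ w (6 * M) = ent n v ∧ (∀ k, nr (w k) (w (k + 1)) 1) ∧
        ∀ k, Good M ξ (n + 1) (w k) ∧ nr (w k) (mulc M u) (2 * M) := by
  by_cases h : Good M ξ n u ∧ Good M ξ n v ∧ nr u v 1
  swap
  · exact ⟨fun _ => 0, fun a b c => (h ⟨a, b, c⟩).elim⟩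
  obtain ⟨hu, hv, huv⟩ := h
  obtain ⟨hu1, hu2⟩ := hent n u hu
  obtain ⟨hv1, hv2⟩ := hent n v hv
  have hM' : (400 : ℤ) ≤ M := by exact_mod_cast hM
  have huv' : nr (mulc M u) (mulc M v) M := by
    simp only [nr, mulc, ← mul_sub, abs_mul, Nat.abs_cast] at huv ⊢
    constructor
    · nlinarith [huv.1]
    · nlinarith [huv.2]
  have hxy : nr (ent n u) (ent n v) (M + 226) := by
    simp only [nr, abs_le] at *
    omega
  obtain ⟨β, hβx, hβy, hβ⟩ : ∃ β, ¬ nr (ent n u) β 28 ∧ ¬ nr (ent n v) β 28 ∧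
      ∀ β', nr β' (mulc M u) (7 * M) → ¬ Good M ξ (n + 1) β' → nr β' β 28 := by
    by_cases hb : ∃ β, nr β (mulc M u) (7 * M) ∧ ¬ Good M ξ (n + 1) β
    · obtain ⟨β, hβ, hβb⟩ := hb
      refine ⟨β, hu2 β hβ hβb, fun hc => hv2 β ?_ hβb hc, fun β' h1 h2 => hu.sub h1 hβ h2 hβb⟩
      simp only [nr, abs_le] at *
      omega
    · refine ⟨((ent n u).1 + 10 * M, (ent n u).2), ?_, ?_, fun β' h1 h2 => (hb ⟨β', h1, h2⟩).elim⟩
      · simp only [nr, abs_le] at *
        omega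
      · simp only [nr, abs_le] at *
        omega
  obtain ⟨w, w0, w1, w2, w3⟩ := exists_route _ _ β (M + 226) (2 * M) (by push_cast; omega)
    hβx hβy hxy
  refine ⟨w, fun _ _ _ => ⟨w0, by rw [← w1]; congr 1; ring, w2, fun k => ?_⟩⟩
  have h2 : nr (w k) (mulc M u) (2 * M) := by
    have := (w3 k).2
    simp only [nr, abs_le] at *
    omega
  refine ⟨?_, h2⟩
  by_contra hb
  refine (w3 k).1 (hβ _ ?_ hb)
  simp only [nr, abs_le] at *
  omega

theorem exists_levels (hM : 400 ≤ M) (c0 : ℕ → ℤ × ℤ) (h0 : ∀ i, Good M ξ 0 (c0 i))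
    (h1 : ∀ i, nr (c0 i) (c0 (i + 1)) 1) : ∃ p : ℕ → ℕ → ℤ × ℤ, p 0 = c0 ∧
      (∀ n i, Good M ξ n (p n i)) ∧ (∀ n i, nr (p n i) (p n (i + 1)) 1) ∧
      ∀ n i, nr (p (n + 1) i) (mulc M (p n (i / (6 * M)))) (2 * M) := by
  choose ent hent using fun n c => exists_entry (M := M) (ξ := ξ) n c
  choose W hW using exists_refine hM ent hent
  let p : ℕ → ℕ → ℤ × ℤ := fun n => Nat.rec c0
    (fun n q m => W n (q (m / (6 * M))) (q (m / (6 * M) + 1)) (m % (6 * M))) n
  have hp : ∀ n m, p (n + 1) m =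
      W n (p n (m / (6 * M))) (p n (m / (6 * M) + 1)) (m % (6 * M)) := fun _ _ => rfl
  have hJ : 0 < 6 * M := by omega
  have key : ∀ n, (∀ i, Good M ξ n (p n i)) ∧ ∀ i, nr (p n i) (p n (i + 1)) 1 := by
    intro n
    induction n with
    | zero => exact ⟨h0, h1⟩
    | succ n ih =>
      obtain ⟨ig, is⟩ := ih
      refine ⟨fun i => ?_, fun i => ?_⟩
      · rw [hp]
        exact ((hW n _ _ (ig _) (ig _) (is _)).2.2.2 _).1
      · rw [hp, hp]
        obtain ⟨a0, a1, a2, a3⟩ := hW n _ _ (ig (i / (6 * M))) (ig (i / (6 * M) + 1)) (is _)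
        by_cases hc : i % (6 * M) + 1 = 6 * M
        · have e1 : (i + 1) / (6 * M) = i / (6 * M) + 1 := by
            have := Nat.div_add_mod i (6 * M)
            rw [Nat.div_eq_iff hJ]
            constructor <;> [nlinarith; skip]
            have : (i / (6 * M) + 1) * (6 * M) = 6 * M * (i / (6 * M)) + 6 * M := by ring
            omega
          have e2 : (i + 1) % (6 * M) = 0 := by
            have h3 := Nat.div_add_mod i (6 * M)
            have h4 := Nat.div_add_mod (i + 1) (6 * M)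
            rw [e1] at h4
            have : 6 * M * (i / (6 * M) + 1) = 6 * M * (i / (6 * M)) + 6 * M := by ring
            omega
          rw [e1, e2, (hW n _ _ (ig (i / (6 * M) + 1)) (ig _) (is _)).1, ← a1]
          have := a2 (i % (6 * M))
          rwa [hc] at this
        · have hlt := Nat.mod_lt i hJ
          have e1 : (i + 1) / (6 * M) = i / (6 * M) := by
            have := Nat.div_add_mod i (6 * M)
            rw [Nat.div_eq_iff hJ]
            have : (i / (6 * M)) * (6 * M) = 6 * M * (i / (6 * M)) := by ring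
            omega
          have e2 : (i + 1) % (6 * M) = i % (6 * M) + 1 := by
            have h3 := Nat.div_add_mod i (6 * M)
            have h4 := Nat.div_add_mod (i + 1) (6 * M)
            rw [e1] at h4
            omega
          rw [e1, e2]
          exact a2 _
  refine ⟨p, rfl, fun n => (key n).1, fun n => (key n).2, fun n i => ?_⟩
  rw [hp]
  exact ((hW n _ _ ((key n).1 _) ((key n).1 _) ((key n).2 _)).2.2.2 _).2

end Pool.Agent.P.MP_d66c6d_pr
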