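import Pool.Agent.P.MP_d66c6d_pr.Geo

/-! Probability that a box is bad. -/

namespace Pool.Agent.P.MP_d66c6d_pr

open Set MeasureTheory ProbabilityTheory Filter Topology

abbrev Ix : Type := Option (ℕ × ℤ × ℤ)

def dep (M n : ℕ) (c : ℤ × ℤ) : Set Ix :=
  {i | ∃ m c', i = some (n + m, c') ∧ nr c' (mulc (M ^ m) c) (14 * (M : ℤ) ^ m)}

noncomputable def box (c : ℤ × ℤ) (k : ℕ) : Finset (ℤ × ℤ) :=
  Finset.Icc (c.1 - k) (c.1 + k) ×ˢ Finset.Icc (c.2 - k) (c.2 + k)

theorem mem_box {c c' : ℤ × ℤ} {k : ℕ} : c' ∈ box c k ↔ nr c' c k := by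
  simp only [box, Finset.mem_product, Finset.mem_Icc, nr, abs_le]
  omega

theorem card_box (c : ℤ × ℤ) (k : ℕ) : (box c k).card = (2 * k + 1) ^ 2 := by
  simp only [box, Finset.card_product, Int.card_Icc]
  have h1 : (c.1 + k + 1 - (c.1 - k)).toNat = 2 * k + 1 := by omega
  have h2 : (c.2 + k + 1 - (c.2 - k)).toNat = 2 * k + 1 := by omega
  rw [h1, h2]; ring

variable {M : ℕ}

theorem dep_sub (hM : 400 ≤ M) {n : ℕ} {c c1 : ℤ × ℤ} (h : nr c1 (mulc M c) (7 * M)) :
    dep M (n + 1) c1 ⊆ dep M n c := by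
  rintro _ ⟨m, c', rfl, hc⟩
  refine ⟨m + 1, c', by congr 2; omega, ?_⟩
  have hM' : (400 : ℤ) ≤ M := by exact_mod_cast hM
  have hp : (0 : ℤ) < (M : ℤ) ^ m := by positivity
  have key : ∀ a b e : ℤ, |a - (M : ℤ) ^ m * b| ≤ 14 * (M : ℤ) ^ m → |b - M * e| ≤ 7 * M →
      |a - (M : ℤ) ^ (m + 1) * e| ≤ 14 * (M : ℤ) ^ (m + 1) := by
    intro a b e h1 h2
    rw [abs_le] at *
    have h3 := mul_le_mul_of_nonneg_left h2.1 hp.le
    have h4 := mul_le_mul_of_nonneg_left h2.2 hp.le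
    have h5 := mul_le_mul_of_nonneg_left hM' hp.le
    rw [pow_succ]
    constructor <;> nlinarith
  simp only [nr, mulc] at *
  push_cast at *
  exact ⟨key _ _ _ hc.1 h.1, key _ _ _ hc.2 h.2⟩

theorem dep_disj (hM : 400 ≤ M) {n : ℕ} {c1 c2 : ℤ × ℤ} (h : ¬ nr c1 c2 28) :
    Disjoint (dep M n c1) (dep M n c2) := by
  rw [Set.disjoint_left]
  rintro _ ⟨m, c', rfl, hc⟩ ⟨m', c'', he, hc'⟩
  simp only [Option.some.injEq, Prod.mk.injEq] at he
  obtain ⟨e1, rfl⟩ := he
  have : m = m' := by omega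
  subst this
  have hM' : (400 : ℤ) ≤ M := by exact_mod_cast hM
  have hp : (0 : ℤ) < (M : ℤ) ^ m := by positivity
  have key : ∀ a b e : ℤ, |a - (M : ℤ) ^ m * b| ≤ 14 * (M : ℤ) ^ m →
      |a - (M : ℤ) ^ m * e| ≤ 14 * (M : ℤ) ^ m → |b - e| ≤ 28 := by
    intro a b e h1 h2
    rw [abs_le] at *
    constructor
    · by_contra h3
      push Not at h3
      nlinarith
    · by_contra h3
      push Not at h3
      nlinarith
  apply h
  simp only [nr, mulc] at *
  push_cast at *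
  exact ⟨key _ _ _ hc.1 hc'.1, key _ _ _ hc.2 hc'.2⟩

variable {Ω : Type*} (G : Ix → Set Ω)

def marks (ω : Ω) (n : ℕ) (c : ℤ × ℤ) : Prop := ω ∉ G (some (n, c))

@[reducible] def sig (S : Set Ix) : MeasurableSpace Ω := ⨆ i ∈ S, MeasurableSpace.generateFrom {G i}

theorem sig_mono {S T : Set Ix} (h : S ⊆ T) : sig G S ≤ sig G T := biSup_mono h

theorem meas_sig {S : Set Ix} {i : Ix} (h : i ∈ S) : MeasurableSet[sig G S] (G i) :=
  (le_biSup (fun i => MeasurableSpace.generateFrom {G i}) h) _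
    (MeasurableSpace.measurableSet_generateFrom rfl)

theorem badd_eq (d n : ℕ) (c : ℤ × ℤ) : {ω | badd M (marks G ω) (d + 1) n c} =
    (⋃ c' ∈ box c 9, (G (some (n, c')))ᶜ) ∪
      ⋃ c1 ∈ box (mulc M c) (7 * M), ⋃ c2 ∈ box (mulc M c) (7 * M), ⋃ (_ : ¬ nr c1 c2 28),
        {ω | badd M (marks G ω) d (n + 1) c1} ∩ {ω | badd M (marks G ω) d (n + 1) c2} := by
  ext ω
  simp only [badd, mem_ofPred_eq, mem_union, mem_iUnion, mem_box, mem_compl_iff, mem_inter_iff,
    exists_prop, marks]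
  push_cast
  have : ∀ c' : ℤ × ℤ, nr c c' 9 ↔ nr c' c 9 := fun c' => by
    simp only [nr, abs_le]; omega
  simp only [this]
  refine or_congr Iff.rfl ⟨?_, ?_⟩
  · rintro ⟨c1, c2, h1, h2, h3⟩
    exact ⟨c1, h1, c2, h2, h3⟩
  · rintro ⟨c1, h1, c2, h2, h3⟩
    exact ⟨c1, c2, h1, h2, h3⟩

theorem meas_badd (hM : 400 ≤ M) : ∀ (d n : ℕ) (c : ℤ × ℤ),
    MeasurableSet[sig G (dep M n c)] {ω | badd M (marks G ω) d n c}
  | 0, n, c => by simp [badd]
  | d + 1, n, c => by
    rw [badd_eq]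
    refine MeasurableSet.union ?_ ?_
    · refine Finset.measurableSet_biUnion _ fun c' hc' => (meas_sig G ?_).compl
      refine ⟨0, c', rfl, ?_⟩
      rw [mem_box] at hc'
      simp only [nr, mulc, abs_le, pow_zero, Nat.cast_one, one_mul, mul_one] at *
      omega
    · refine Finset.measurableSet_biUnion _ fun c1 h1 => Finset.measurableSet_biUnion _
        fun c2 h2 => MeasurableSet.iUnion fun _ => MeasurableSet.inter ?_ ?_
      · rw [mem_box] at h1
        exact sig_mono G (dep_sub hM (by exact_mod_cast h1)) _ (meas_badd hM d (n + 1) c1)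
      · rw [mem_box] at h2
        exact sig_mono G (dep_sub hM (by exact_mod_cast h2)) _ (meas_badd hM d (n + 1) c2)

/-- the number of pairs of sub-boxes -/
def nW (M : ℕ) : ℕ := ((2 * (7 * M) + 1) ^ 2) ^ 2

variable [mΩ : MeasurableSpace Ω] {P : Measure Ω} [IsProbabilityMeasure P]

theorem sig_le (hG : ∀ i, MeasurableSet (G i)) (S : Set Ix) : sig G S ≤ mΩ :=
  iSup₂_le fun i _ => MeasurableSpace.generateFrom_le fun _ h => h ▸ hG i

omit [IsProbabilityMeasure P] in
theorem sig_indep (hG : ∀ i, MeasurableSet (G i)) (hI : iIndepSet G P) {S T : Set Ix}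
    (h : Disjoint S T) {A B : Set Ω} (hA : MeasurableSet[sig G S] A)
    (hB : MeasurableSet[sig G T] B) : P (A ∩ B) = P A * P B := by
  have := indep_iSup_of_disjoint (μ := P) (m := fun i => MeasurableSpace.generateFrom {G i})
    (fun i => MeasurableSpace.generateFrom_le fun _ h => h ▸ hG i)
    ((iIndepSet_iff_iIndep _ _).1 hI) h
  exact (Indep_iff _ _ _).1 this A B hA hB

omit [IsProbabilityMeasure P] in
theorem prob_badd (hM : 400 ≤ M) (hG : ∀ i, MeasurableSet (G i)) (hI : iIndepSet G P) (n1 : ℕ)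
    (h0 : ∀ n c, n < n1 → P.real (G (some (n, c)))ᶜ = 0)
    (h1 : ∀ n c, P.real (G (some (n, c)))ᶜ ≤ 1 / (1444 * nW M)) : ∀ (d n : ℕ) (c : ℤ × ℤ),
    P.real {ω | badd M (marks G ω) d n c} ≤ 1 / (2 * nW M) * (1 / 2) ^ (n1 - n)
  | 0, n, c => by simp [badd]
  | d + 1, n, c => by
    have hW : (0 : ℝ) < nW M := by unfold nW; positivity
    set β : ℝ := 1 / (2 * nW M) * (1 / 2) ^ (n1 - (n + 1)) with hβ
    have hβ0 : 0 ≤ β := by positivity
    have hβ1 : β ≤ 1 / (2 * nW M) := by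
      have : (1 / 2 : ℝ) ^ (n1 - (n + 1)) ≤ 1 := pow_le_one₀ (by norm_num) (by norm_num)
      exact mul_le_of_le_one_right (by positivity) this
    rw [badd_eq]
    refine (measureReal_union_le _ _).trans ?_
    have a2 : P.real (⋃ c1 ∈ box (mulc M c) (7 * M), ⋃ c2 ∈ box (mulc M c) (7 * M),
        ⋃ (_ : ¬ nr c1 c2 28), {ω | badd M (marks G ω) d (n + 1) c1} ∩
          {ω | badd M (marks G ω) d (n + 1) c2}) ≤ β / 2 := by
      refine (measureReal_biUnion_finset_le _ _).trans ?_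
      refine (Finset.sum_le_card_nsmul _ _ ((2 * (7 * M) + 1) ^ 2 * β ^ 2) fun c1 _ => ?_).trans ?_
      · refine (measureReal_biUnion_finset_le _ _).trans ?_
        refine (Finset.sum_le_card_nsmul _ _ (β ^ 2) fun c2 _ => ?_).trans ?_
        · by_cases hc : nr c1 c2 28
          · simp only [hc, not_true_eq_false, iUnion_of_empty, measureReal_empty]
            positivity
          · simp only [hc, not_false_eq_true, iUnion_true]
            rw [measureReal_def, sig_indep G hG hI (dep_disj hM hc) (meas_badd G hM d _ c1)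
              (meas_badd G hM d _ c2), ENNReal.toReal_mul, sq]
            exact mul_le_mul (prob_badd hM hG hI n1 h0 h1 d _ c1)
              (prob_badd hM hG hI n1 h0 h1 d _ c2) ENNReal.toReal_nonneg hβ0
        · rw [card_box, nsmul_eq_mul]
          push_cast
          exact le_rfl
      · rw [card_box, nsmul_eq_mul]
        have e : (((2 * (7 * M) + 1) ^ 2 : ℕ) : ℝ) * ((2 * (7 * M) + 1) ^ 2 * β ^ 2) =
            (nW M * β) * β := by
          unfold nW; push_cast; ring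
        rw [e]
        have : (nW M : ℝ) * β ≤ 1 / 2 := by
          calc (nW M : ℝ) * β ≤ nW M * (1 / (2 * nW M)) := by gcongr
            _ = 1 / 2 := by field_simp
        nlinarith
    by_cases hn : n < n1
    · have a1 : P.real (⋃ c' ∈ box c 9, (G (some (n, c')))ᶜ) ≤ 0 := by
        refine (measureReal_biUnion_finset_le _ _).trans ?_
        exact le_of_eq (Finset.sum_eq_zero fun c' _ => h0 n c' hn)
      have : n1 - n = n1 - (n + 1) + 1 := by omega
      rw [this, pow_succ]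
      linarith
    · have a1 : P.real (⋃ c' ∈ box c 9, (G (some (n, c')))ᶜ) ≤ 1 / (4 * nW M) := by
        refine (measureReal_biUnion_finset_le _ _).trans ?_
        refine (Finset.sum_le_card_nsmul _ _ _ fun c' _ => h1 n c').trans ?_
        rw [card_box, nsmul_eq_mul]
        apply le_of_eq
        push_cast
        field_simp
        norm_num
      have e1 : n1 - n = 0 := by omega
      rw [e1, pow_zero, mul_one]
      have : (1 : ℝ) / (4 * nW M) = 1 / (2 * nW M) / 2 := by field_simp; norm_num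
      linarith

theorem prob_bad (hM : 400 ≤ M) (hG : ∀ i, MeasurableSet (G i)) (hI : iIndepSet G P) (n1 : ℕ)
    (h0 : ∀ n c, n < n1 → P.real (G (some (n, c)))ᶜ = 0)
    (h1 : ∀ n c, P.real (G (some (n, c)))ᶜ ≤ 1 / (1444 * nW M)) (c : ℤ × ℤ) :
    P.real {ω | ¬ Good M (marks G ω) 0 c} ≤ (1 / 2) ^ (n1 + 1) := by
  have e : {ω | ¬ Good M (marks G ω) 0 c} = ⋃ d, {ω | badd M (marks G ω) d 0 c} := by
    ext ω; simp [Good]
  have hm : Monotone fun d => {ω | badd M (marks G ω) d 0 c} := fun d d' h ω hω => badd_mono h hω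
  have hW : (1 : ℝ) ≤ nW M := by
    have : 0 < nW M := by unfold nW; positivity
    exact_mod_cast this
  rw [e, measureReal_def, hm.measure_iUnion]
  refine ENNReal.toReal_le_of_le_ofReal (by positivity) (iSup_le fun d => ?_)
  rw [← ofReal_measureReal]
  refine ENNReal.ofReal_le_ofReal ((prob_badd G hM hG hI n1 h0 h1 d 0 c).trans ?_)
  rw [Nat.sub_zero, pow_succ, mul_comm]
  gcongr
  linarith

/-- With positive probability the event `G none` holds and a whole corridor is good. -/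
theorem prob_corridor (hM : 400 ≤ M) (hG : ∀ i, MeasurableSet (G i)) (hI : iIndepSet G P)
    (n1 : ℕ) (h0 : ∀ n c, n < n1 → P.real (G (some (n, c)))ᶜ = 0)
    (h1 : ∀ n c, P.real (G (some (n, c)))ᶜ ≤ 1 / (1444 * nW M)) (T : Finset (ℤ × ℤ))
    (hT : T.card ≤ 2 ^ n1) (hF : P (G none) ≠ 0) :
    MeasurableSet (G none ∩ {ω | ∀ c ∈ T, Good M (marks G ω) 0 c}) ∧
    P (G none ∩ {ω | ∀ c ∈ T, Good M (marks G ω) 0 c}) ≠ 0 := by
  have e : {ω | ∀ c ∈ T, Good M (marks G ω) 0 c} =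
      (⋃ c ∈ T, {ω | ¬ Good M (marks G ω) 0 c})ᶜ := by
    ext ω; simp
  have hms : MeasurableSet[sig G {none}ᶜ] (⋃ c ∈ T, {ω | ¬ Good M (marks G ω) 0 c}) := by
    refine Finset.measurableSet_biUnion _ fun c _ => ?_
    have e : {ω | ¬ Good M (marks G ω) 0 c} = ⋃ d, {ω | badd M (marks G ω) d 0 c} := by
      ext ω; simp [Good]
    rw [e]
    refine MeasurableSet.iUnion fun d => sig_mono G ?_ _ (meas_badd G hM d 0 c)
    rintro _ ⟨m, c', rfl, -⟩
    simp
  have hd : Disjoint ({none} : Set Ix) {none}ᶜ := disjoint_compl_right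
  have hm0 : MeasurableSet[sig G {none}] (G none) := meas_sig G (mem_singleton _)
  have hm1 : MeasurableSet[sig G {none}ᶜ] (⋃ c ∈ T, {ω | ¬ Good M (marks G ω) 0 c})ᶜ :=
    @MeasurableSet.compl _ _ (sig G {none}ᶜ) hms
  rw [e, sig_indep G hG hI hd hm0 hm1]
  refine ⟨(hG _).inter (sig_le G hG _ _ hm1), ?_⟩
  refine mul_ne_zero hF ?_
  have hle : P.real (⋃ c ∈ T, {ω | ¬ Good M (marks G ω) 0 c}) ≤ 1 / 2 := by
    refine (measureReal_biUnion_finset_le _ _).trans ?_
    refine (Finset.sum_le_card_nsmul _ _ _ fun c _ => prob_bad G hM hG hI n1 h0 h1 c).trans ?_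
    rw [nsmul_eq_mul]
    have : (T.card : ℝ) ≤ 2 ^ n1 := by exact_mod_cast hT
    calc (T.card : ℝ) * (1 / 2) ^ (n1 + 1) ≤ 2 ^ n1 * (1 / 2) ^ (n1 + 1) := by gcongr
      _ = 1 / 2 := by rw [pow_succ, ← mul_assoc, ← mul_pow]; norm_num
  intro h
  rw [prob_compl_eq_zero_iff (sig_le G hG _ _ hms)] at h
  rw [measureReal_def, h] at hle
  norm_num at hle

end Pool.Agent.P.MP_d66c6d_pr
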