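import Pool.Agent.P.MP_d66c6d_pr.Det
import Pool.Agent.P.MP_d66c6d_pr.Prob
import Pool.Agent.P.MP_d66c6d_pr.Mass

/-! In a loop soup of small intensity a cheap path exists with positive probability. -/

namespace Pool.Agent.P.MP_d66c6d_pr

open MeasureTheory ProbabilityTheory Set Metric Filter Topology
open scoped ENNReal

def cell (r : ℝ) (c : ℤ × ℤ) : Set ℂ := {z | ⌊z.re / r⌋ = c.1 ∧ ⌊z.im / r⌋ = c.2}

theorem meas_cell (r : ℝ) (c : ℤ × ℤ) : MeasurableSet (cell r c) :=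
  (measurableSet_eq_fun (Measurable.floor (by fun_prop)) measurable_const).inter
    (measurableSet_eq_fun (Measurable.floor (by fun_prop)) measurable_const)

theorem dist_cell {r : ℝ} (hr : 0 < r) {c : ℤ × ℤ} {z : ℂ} (hz : z ∈ cell r c) :
    dist (toR z) (pt r c) ≤ r := by
  have key : ∀ y : ℝ, |y - r * (⌊y / r⌋ : ℤ)| ≤ r := by
    intro y
    have h1 := Int.floor_le (y / r)
    have h2 := Int.lt_floor_add_one (y / r)
    rw [le_div_iff₀ hr] at h1
    rw [div_lt_iff₀ hr] at h2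
    rw [abs_le]
    constructor <;> nlinarith
  simp only [pt, toR, Prod.dist_eq, Real.dist_eq, max_le_iff, ← hz.1, ← hz.2]
  exact ⟨key _, key _⟩

theorem vol_cell {r : ℝ} (hr : 0 < r) (c : ℤ × ℤ) :
    volume (cell r c) ≤ ENNReal.ofReal (16 * r ^ 2) := by
  have : cell r c ⊆ closedBall (toC (pt r c)) (2 * r) := by
    intro z hz
    have h1 := dist_toC (toR z) (pt r c)
    have h2 := dist_cell hr hz
    have h3 : toC (toR z) = z := rfl
    rw [h3] at h1
    rw [mem_closedBall]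
    linarith
  refine (measure_mono this).trans ((vol_ball_le _ (by positivity)).trans (le_of_eq ?_))
  congr 1; ring

def cls (M : ℕ) (r0 : ℝ) (n1 : ℕ) : Ix → Set Lp
  | none => {l | root l ∈ ball (0 : ℂ) 1 ∧ rad r0 M n1 < sz l} ∪ {l | sz l ≤ 0}
  | some (n, c) => {l | n1 ≤ n ∧ (root l ∈ cell (rad r0 M n) c ∧ rad r0 M (n + 1) < sz l) ∧
      sz l ≤ rad r0 M n}

variable {M : ℕ} {r0 : ℝ}

theorem meas_cls (n1 : ℕ) : ∀ i, MeasurableSet (cls M r0 n1 i)
  | none => ((meas_root measurableSet_ball).inter (measurableSet_lt measurable_const meas_sz)).union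
      (measurableSet_le meas_sz measurable_const)
  | some (_, c) => (MeasurableSet.const _).inter (((meas_root (meas_cell _ c)).inter
      (measurableSet_lt measurable_const meas_sz)).inter (measurableSet_le meas_sz measurable_const))

theorem cls_disj (hM : 400 ≤ M) (hr : 0 < r0) (n1 : ℕ) :
    Pairwise fun i j => Disjoint (cls M r0 n1 i) (cls M r0 n1 j) := by
  have h0 : ∀ n c, Disjoint (cls M r0 n1 none) (cls M r0 n1 (some (n, c))) := by
    intro n c
    rw [Set.disjoint_left]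
    rintro l (⟨-, h⟩ | h) ⟨h1, ⟨-, h2⟩, h3⟩
    · linarith [rad_anti hM hr h1]
    · have : sz l ≤ 0 := h
      linarith [rad_pos hM hr (n + 1)]
  rintro (_ | ⟨n, c⟩) (_ | ⟨m, c'⟩) hij
  · exact (hij rfl).elim
  · exact h0 _ _
  · exact (h0 _ _).symm
  · rw [Set.disjoint_left]
    rintro l ⟨-, ⟨h1, h2⟩, h3⟩ ⟨-, ⟨h4, h5⟩, h6⟩
    rcases lt_trichotomy n m with h | h | h
    · linarith [rad_anti hM hr (show n + 1 ≤ m from h)]
    · subst h
      exact hij (by rw [show c = c' from Prod.ext (h1.1.symm.trans h4.1) (h1.2.symm.trans h4.2)])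
    · linarith [rad_anti hM hr (show m + 1 ≤ n from h)]

theorem exists_level (hM : 400 ≤ M) (hr : 0 < r0) {n1 : ℕ} {s : ℝ} (hs : 0 < s)
    (h : s ≤ rad r0 M n1) : ∃ n, n1 ≤ n ∧ rad r0 M (n + 1) < s ∧ s ≤ rad r0 M n := by
  have hMR : (400 : ℝ) ≤ M := by exact_mod_cast hM
  have hex : ∃ j, rad r0 M (n1 + j + 1) < s := by
    obtain ⟨n, hn⟩ := exists_pow_lt_of_lt_one (show 0 < s / r0 by positivity)
      (show 1 / (M : ℝ) < 1 by rw [div_lt_one (by linarith)]; linarith)
    refine ⟨n, (rad_anti hM hr (show n ≤ n1 + n + 1 by omega)).trans_lt ?_⟩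
    rw [lt_div_iff₀ hr, one_div, inv_pow] at hn
    unfold rad
    rw [div_eq_mul_inv]
    linarith
  classical
  refine ⟨n1 + Nat.find hex, Nat.le_add_right _ _, Nat.find_spec hex, ?_⟩
  rcases Nat.eq_zero_or_pos (Nat.find hex) with h0 | h0
  · rwa [h0]
  · have := Nat.find_min hex (Nat.sub_lt h0 one_pos)
    rw [show n1 + (Nat.find hex - 1) + 1 = n1 + Nat.find hex by omega] at this
    exact not_lt.1 this

/-- The union of the filled clusters of the loops of `S` that stay in the unit disc. -/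
def holes (S : Set (Set ℂ)) : Set ℂ :=
  ⋃ K ∈ {K ∈ S | K ⊆ ball 0 1}, fill (closure (cluster {K ∈ S | K ⊆ ball 0 1} K))

theorem soup_good {ν : Measure Br} (hν : IsBridge ν) (hM : 400 ≤ M) : ∃ α0 > (0 : ℝ),
    ∀ α : ℝ≥0∞, α ≤ ENNReal.ofReal α0 → ∀ {Ω : Type} [MeasurableSpace Ω] {P : Measure Ω}
      {N : Ω → Set Lp}, IsPPP P (α • loopMeasure ν) N → ∀ ρ > (0 : ℝ), ρ ≤ 1 / 2 →
      ∃ (C : ℝ) (A : Set Ω), MeasurableSet A ∧ P A ≠ 0 ∧
        ∀ ω ∈ A, CheapPath M (ρ / 16) ρ C (ball 0 (2 * ρ) \ holes (trace '' N ω)) := by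
  obtain ⟨K, hK, hmass⟩ := exists_mass hν
  have hMR : (400 : ℝ) ≤ M := by exact_mod_cast hM
  have hW : (0 : ℝ) < nW M := by unfold nW; positivity
  refine ⟨1 / (1444 * nW M) / (16 * M ^ 2 * K), by positivity, fun α hα Ω _ P N hN ρ hρ hρ1 => ?_⟩
  have := hN.prob
  set r0 := ρ / 16 with hr0
  have hr : 0 < r0 := by positivity
  obtain ⟨L, hL⟩ := exists_nat_ge (2 / r0)
  rw [div_le_iff₀ hr, mul_comm] at hL
  set n1 := L + 1 with hn1
  have hαt : α ≠ ∞ := ne_top_of_le_ne_top ENNReal.ofReal_ne_top hα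
  have hb : ∀ n c, (α • loopMeasure ν) (cls M r0 n1 (some (n, c))) ≤
      ENNReal.ofReal (1 / (1444 * nW M)) := by
    intro n c
    have h1 := rad_pos hM hr n
    have h2 := rad_pos hM hr (n + 1)
    have h3 : loopMeasure ν (cls M r0 n1 (some (n, c))) ≤ ENNReal.ofReal (16 * M ^ 2 * K) := by
      refine (measure_mono fun l hl => hl.2.1).trans
        ((hmass _ (meas_cell _ c) _ h2).trans ?_)
      refine (mul_le_mul_left (vol_cell h1 c) _).trans (le_of_eq ?_)
      rw [← ENNReal.ofReal_mul (by positivity), rad_succ hM n]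
      congr 1
      field_simp
    rw [Measure.smul_apply, smul_eq_mul]
    refine (mul_le_mul' hα h3).trans (le_of_eq ?_)
    rw [← ENNReal.ofReal_mul (by positivity)]
    congr 1
    field_simp
  have hfin : ∀ i, (α • loopMeasure ν) (cls M r0 n1 i) ≠ ∞ := by
    rintro (_ | ⟨n, c⟩)
    · rw [Measure.smul_apply, smul_eq_mul]
      refine ENNReal.mul_ne_top hαt (ne_top_of_le_ne_top ?_ (measure_union_le _ _))
      rw [mass_null hν, add_zero]
      refine ne_top_of_le_ne_top ?_ (hmass _ measurableSet_ball _ (rad_pos hM hr n1))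
      exact ENNReal.mul_ne_top measure_ball_lt_top.ne ENNReal.ofReal_ne_top
    · exact ne_top_of_le_ne_top ENNReal.ofReal_ne_top (hb n c)
  have key := prob_corridor (P := P) (fun i => void N (cls M r0 n1 i)) hM
    (fun i => hN.meas_void (meas_cls n1 i) (hfin i))
    (hN.indep_void (meas_cls n1) hfin (cls_disj hM hr n1)) n1
    (fun n c hn => by
      have : cls M r0 n1 (some (n, c)) = ∅ := by
        ext l
        simp only [cls, mem_ofPred_eq, mem_empty_iff_false, iff_false]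
        exact fun h => absurd h.1 (not_le.2 hn)
      simp [this, void])
    (fun n c => (hN.void_compl (meas_cls n1 _) (hfin _)).trans
      (ENNReal.toReal_le_of_le_ofReal (by positivity) (hb n c)))
    ((Finset.range (L + 1)).image fun i : ℕ => ((i : ℤ), (0 : ℤ)))
    (Finset.card_image_le.trans (by rw [Finset.card_range]; exact Nat.lt_two_pow_self.le))
    (hN.void_ne (meas_cls n1 _) (hfin _))
  refine ⟨400 * (L + 1) * r0 ^ 2, _, key.1, key.2, ?_⟩
  rintro ω ⟨h1, h2⟩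
  refine det (ξ := marks (fun i => void N (cls M r0 n1 i)) ω) hM hr (by rw [hr0]; linarith) hρ1 hL
    (fun K hK => hK.2) ?_ fun i hi => h2 _ (Finset.mem_image.2
      ⟨i, Finset.mem_range.2 (Nat.lt_succ_of_le hi), rfl⟩)
  rintro _ ⟨⟨l, hl, rfl⟩, hl1⟩
  refine ⟨trace_pathConn l, ?_⟩
  have h3 : l ∉ cls M r0 n1 none := fun h => by
    have h4 : N ω ∩ cls M r0 n1 none = ∅ := h1
    exact (h4 ▸ (⟨hl, h⟩ : l ∈ N ω ∩ cls M r0 n1 none) : l ∈ (∅ : Set Lp))
  have h4 : 0 < sz l := not_le.1 fun h => h3 (Or.inr h)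
  have h5 : sz l ≤ rad r0 M n1 := not_lt.1 fun h => h3 (Or.inl ⟨hl1 (root_mem l), h⟩)
  obtain ⟨n, hn1', hn2, hn3⟩ := exists_level hM hr h4 h5
  have hc : root l ∈ cell (rad r0 M n) (⌊(root l).re / rad r0 M n⌋, ⌊(root l).im / rad r0 M n⌋) :=
    ⟨rfl, rfl⟩
  refine ⟨n, (⌊(root l).re / rad r0 M n⌋, ⌊(root l).im / rad r0 M n⌋), fun h => ?_,
    fun x hx => ?_⟩
  · exact (Set.eq_empty_iff_forall_notMem.1 h l) ⟨hl, hn1', ⟨hc, hn2⟩, hn3⟩
  · have h6 := dist_cell (rad_pos hM hr n) hc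
    have h7 := dist_toR x (root l)
    have h8 := mem_closedBall.1 (trace_sub l hx)
    have h9 := dist_triangle (toR x) (toR (root l)) (pt (rad r0 M n)
      (⌊(root l).re / rad r0 M n⌋, ⌊(root l).im / rad r0 M n⌋))
    have := rad_pos hM hr n
    linarith

end Pool.Agent.P.MP_d66c6d_pr
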