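import Pool.Agent.P.MP_d66c6d_pr.Nest

/-! Transfer to the whole-plane ensemble. -/

namespace Pool.Agent.P.MP_d66c6d_pr

open MeasureTheory ProbabilityTheory Set Metric Filter Topology
open scoped ENNReal

theorem whole {ν : Measure Br} (hν : IsBridge ν) {M : ℕ} (hM : 400 ≤ M) : ∃ α0 > (0 : ℝ),
    ∀ κ : ℝ, intensity κ ≤ ENNReal.ofReal α0 → ∀ {Ω : Type} [MeasurableSpace Ω]
      [StandardBorelSpace Ω] {P : Measure Ω} {Γ : Ω → Set (Set ℂ)}, IsWholePlaneCLE ν κ P Γ →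
      P {ω | (firstCarpet (Γ ω)).Nonempty} ≠ 0 →
      (∀ᵐ ω ∂P, IsCompact (firstCarpet (Γ ω))) ∧
      ∃ ρ > (0 : ℝ), ∃ C : ℝ, P {ω | CheapPath M (ρ / 16) ρ C (firstCarpet (Γ ω))} ≠ 0 := by
  obtain ⟨α0, hα0, hs⟩ := soup_good hν hM
  refine ⟨α0, hα0, fun κ hκ Ω _ _ P Γ hΓ hne => ?_⟩
  obtain ⟨hP, Ω₀, _, _, P₀, N, hN, hc⟩ := hΓ
  have := hN.prob
  set μ := Measure.infinitePi (fun _ : ℕ => P₀) with hμ
  have tr : ∀ η > (0 : ℝ≥0∞), ∃ R : ℝ, ∀ A : Set (Set (Set ℂ)),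
      P {ω | within 1 (Γ ω) ∈ A} ≤
        μ {ω | within 1 (nested (fun k => trace '' N (ω k)) (ball 0 R)) ∈ A} + η ∧
      μ {ω | within 1 (nested (fun k => trace '' N (ω k)) (ball 0 R)) ∈ A} ≤
        P {ω | within 1 (Γ ω) ∈ A} + η := by
    intro η hη
    obtain ⟨R, hR⟩ := hc 1 one_pos η hη
    obtain ⟨Q, h1, h2, h3⟩ := hR R le_rfl
    have : IsProbabilityMeasure Q := ⟨by
      rw [← preimage_univ (f := Prod.fst), ← Measure.map_apply measurable_fst MeasurableSet.univ,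
        h1, measure_univ]⟩
    refine ⟨R, fun A => ?_⟩
    have := transfer Q (fun ω => within 1 (Γ ω))
      (fun ω => within 1 (nested (fun k => trace '' N (ω k)) (ball 0 R))) A
    rw [h1, h2] at this
    exact ⟨this.1.trans (add_le_add_right h3 _), this.2.trans (add_le_add_right h3 _)⟩
  have hopen : ∀ᵐ ω ∂P, ∀ V ∈ within 1 (Γ ω), IsOpen V := by
    rw [ae_iff]
    refine le_antisymm (ENNReal.le_of_forall_pos_le_add fun η hη _ => ?_) zero_le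
    obtain ⟨R, hR⟩ := tr η (by exact_mod_cast hη)
    refine (hR {G | ¬ ∀ V ∈ G, IsOpen V}).1.trans (add_le_add_left (le_of_eq ?_) _)
    convert measure_empty (μ := μ)
    refine eq_empty_of_forall_notMem fun ω hω => hω fun V hV => ?_
    obtain ⟨k, hk⟩ := mem_iUnion.1 hV.1
    exact gen_open isOpen_ball k V hk
  refine ⟨hopen.mono fun ω h => isCompact_firstCarpet h, ?_⟩
  obtain ⟨n, hn⟩ : ∃ n : ℕ, P {ω | ∃ V, IsFirst (Γ ω) V ∧
      ball 0 (2 * (1 / ((n : ℝ) + 2))) ⊆ V} ≠ 0 := by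
    by_contra h
    push Not at h
    apply hne
    refine measure_mono_null ?_ (measure_union_null (measure_iUnion_null h) (ae_iff.1 hopen))
    rintro ω ⟨z, V, hV, -⟩
    by_cases ho : ∀ V ∈ within 1 (Γ ω), IsOpen V
    · obtain ⟨s, hs, hs'⟩ := Metric.isOpen_iff.1
        (ho V ⟨hV.1, subset_closure.trans hV.2.2.1⟩) 0 hV.2.1
      obtain ⟨n, hn⟩ := exists_nat_gt (2 / s)
      refine Or.inl (mem_iUnion.2 ⟨n, V, hV, (ball_subset_ball ?_).trans hs'⟩)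
      rw [div_lt_iff₀ hs] at hn
      rw [mul_one_div, div_le_iff₀ (by positivity)]
      nlinarith
    · exact Or.inr ho
  have hρ : (0 : ℝ) < 1 / ((n : ℝ) + 2) := by positivity
  have hρ1 : 1 / ((n : ℝ) + 2) ≤ 1 / 2 :=
    one_div_le_one_div_of_le (by norm_num) (by linarith [Nat.cast_nonneg (α := ℝ) n])
  set ρ := 1 / ((n : ℝ) + 2)
  obtain ⟨C, A, hA, hA0, hAC⟩ := hs _ hκ hN ρ hρ hρ1
  refine ⟨ρ, hρ, C, fun h0 => mul_ne_zero hA0 hn ?_⟩
  refine le_antisymm (ENNReal.le_of_forall_pos_le_add fun η hη _ => ?_) zero_le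
  obtain ⟨R, hR⟩ := tr (η / 2) (ENNReal.half_pos (by exact_mod_cast hη.ne'))
  have h1 := (hR {G | ∃ V, IsFirst G V ∧ ball 0 (2 * ρ) ⊆ V}).1
  have h2 := (hR {G | CheapPath M (ρ / 16) ρ C (firstCarpet G)}).2
  simp only [mem_ofPred_eq, isFirst_within, firstCarpet_within] at h1 h2
  rw [h0, zero_add] at h2
  have h3 := doob P₀ (fun k => {ω | Ek (fun k => trace '' N (ω k)) (ball 0 R) ρ k})
    (fun k ω ω' h hE => Ek_congr (fun i hi => by rw [h i hi]) hE) hA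
  have h4 : μ {ω | ∃ V, IsFirst (nested (fun k => trace '' N (ω k)) (ball 0 R)) V ∧
      ball 0 (2 * ρ) ⊆ V} ≤ μ (⋃ k, {ω | Ek (fun k => trace '' N (ω k)) (ball 0 R) ρ k}) := by
    refine measure_mono ?_
    rintro ω ⟨V, hV, hV'⟩
    exact mem_iUnion.2 (exists_Ek hV hV')
  have h5 : μ (⋃ k, {ω | Ek (fun k => trace '' N (ω k)) (ball 0 R) ρ k} ∩ {ω | ω (k + 1) ∈ A}) ≤
      η / 2 := by
    refine le_trans (measure_mono (iUnion_subset fun k ω hω => ?_)) h2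
    have e1 : Ek (fun k => trace '' N (ω k)) (ball 0 R) ρ k := hω.1
    have e2 : ω (k + 1) ∈ A := hω.2
    have e3 := (hAC _ e2).mono e1.sub
    exact e3
  calc P₀ A * P {ω | ∃ V, IsFirst (Γ ω) V ∧ ball 0 (2 * ρ) ⊆ V}
      ≤ P₀ A * (μ (⋃ k, {ω | Ek (fun k => trace '' N (ω k)) (ball 0 R) ρ k}) + η / 2) :=
        mul_le_mul_right (h1.trans (add_le_add_left h4 _)) _
    _ ≤ η / 2 + η / 2 := by
        rw [mul_add]
        exact add_le_add (h3.trans h5) (mul_le_of_le_one_left' prob_le_one)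
    _ = 0 + η := by rw [ENNReal.add_halves, zero_add]

end Pool.Agent.P.MP_d66c6d_pr
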